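import Pool.Agent.Lib.MP_ef3f0f_gt.N.Spec

set_option autoImplicit false

/-! MP_ef3f0f_gt, part II.3, module SLtop: the topology of `SL₂(ℝ)`. -/

namespace Pool.Agent.MPEF

open scoped Pointwise

private theorem SLtop_emb : Topology.IsClosedEmbedding (Subtype.val : SL2 → M2) := by
  refine Topology.IsClosedEmbedding.mk ⟨⟨rfl⟩, Subtype.val_injective⟩ ?_
  have h1 : Set.range (Subtype.val : SL2 → M2) = {A : M2 | A.det = 1} := Subtype.range_coe
  rw [h1]
  refine isClosed_eq ?_ continuous_const
  exact Continuous.matrix_det continuous_id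

theorem tSLtop : S_SLtop := by
  have h1 : LocallyCompactSpace M2 := inferInstanceAs (LocallyCompactSpace (Fin 2 → Fin 2 → ℝ))
  have h2 : SecondCountableTopology M2 :=
    inferInstanceAs (SecondCountableTopology (Fin 2 → Fin 2 → ℝ))
  have h3 : T2Space M2 := inferInstanceAs (T2Space (Fin 2 → Fin 2 → ℝ))
  exact ⟨SLtop_emb.locallyCompactSpace, SLtop_emb.isEmbedding.secondCountableTopology,
    SLtop_emb.isEmbedding.t2Space⟩

end Pool.Agent.MPEF
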