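import Pool.Agent.Lib.MP_ef3f0f_gt.N.Defs

set_option autoImplicit false

/-!
# MP_ef3f0f_gt, basic facts on `SL₂(ℝ)` and the net lemma (II.3): the statements

Modules `N/X.lean`: `theorem tX : S_Y → ... → S_X`, namespace `Pool.Agent.MPEF`.
-/

namespace Pool.Agent.MPEF

open scoped Pointwise

/-- The Frobenius norm. Proof: Cauchy - Schwarz; explicit formulas. -/
def S_nrm : Prop :=
  (∀ A : M2, 0 ≤ nrm A) ∧ (∀ A : M2, nrm A = 0 ↔ A = 0) ∧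
  (∀ A B : M2, nrm (A + B) ≤ nrm A + nrm B) ∧ (∀ A B : M2, nrm (A - B) ≤ nrm A + nrm B) ∧
  (∀ (c : ℝ) (A : M2), nrm (c • A) = |c| * nrm A) ∧
  (∀ A B : M2, nrm (A * B) ≤ nrm A * nrm B) ∧ (∀ A : M2, nrm A.adjugate = nrm A) ∧
  (∀ (A : M2) (i j : Fin 2), |A i j| ≤ nrm A) ∧
  (∀ A : M2, nrm A ^ 2 = A 0 0 ^ 2 + A 0 1 ^ 2 + A 1 0 ^ 2 + A 1 1 ^ 2) ∧
  Continuous nrm ∧ nrm (1 : M2) = Real.sqrt 2 ∧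
  (∀ g : SL2, (g⁻¹).1 = g.1.adjugate) ∧ (∀ g : SL2, nrm (g⁻¹).1 = nrm g.1) ∧
  (∀ g : SL2, Real.sqrt 2 ≤ nrm g.1)

/-- The balls. Proof: `g⁻¹ - 1 = adj (g - 1)`; `g h - 1 = (g - 1) (h - 1) + (g - 1) + (h - 1)`; `SL₂` is
closed in the matrices, with the subspace topology; a closed bounded set of matrices is compact.
For the last two: `x⁻¹ g x - 1 = x⁻¹ (g - 1) x`; `p⁻¹ q - 1 = p⁻¹ (q - p)`. -/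
def S_Bs : Prop :=
  (∀ s : ℝ, IsOpen (Bs s)) ∧ (∀ s : ℝ, 0 < s → (1 : SL2) ∈ Bs s) ∧
  (∀ (s : ℝ) (g : SL2), g⁻¹ ∈ Bs s ↔ g ∈ Bs s) ∧
  (∀ s t : ℝ, Bs s * Bs t ⊆ Bs (s + t + s * t)) ∧
  (∀ s t : ℝ, s ≤ t → Bs s ⊆ Bs t) ∧
  (∀ U ∈ nhds (1 : SL2), ∃ s : ℝ, 0 < s ∧ Bs s ⊆ U) ∧
  (∀ s : ℝ, IsCompact {g : SL2 | nrm (g.1 - 1) ≤ s}) ∧
  (∀ s : ℝ, IsCompact {g : SL2 | nrm g.1 ≤ s}) ∧
  (∀ (s : ℝ) (g : SL2), g ∈ Bs s → nrm g.1 ≤ 2 + s) ∧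
  (∀ x g : SL2, nrm ((x⁻¹ * g * x).1 - 1) ≤ nrm x.1 ^ 2 * nrm (g.1 - 1)) ∧
  (∀ p q : SL2, nrm ((p⁻¹ * q).1 - 1) ≤ nrm p.1 * nrm (q.1 - p.1))

/-- Topology of `SL₂(ℝ)`. Proof: closed subset of the space of matrices. -/
def S_SLtop : Prop :=
  LocallyCompactSpace SL2 ∧ SecondCountableTopology SL2 ∧ T2Space SL2

/-- `SL₂(ℝ)` is generated by any neighbourhood of `1`. Proof: the ball contains the elementary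
matrices with small entry, so the subgroup contains all elementary matrices (powers), and these
generate `SL₂(ℝ)`: e.g. for `c ≠ 0`: `(a b; c d) = u((a-1)/c) v(c) u((d-1)/c)` with
`u(t) = (1 t; 0 1)`, `v(t) = (1 0; t 1)`; if `c = 0` multiply first by `v(1)`. -/
def S_SLgen : Prop := ∀ s : ℝ, 0 < s → Subgroup.closure (Bs s) = ⊤

/-- Three independent conjugates. Proof. For every traceless `A ≠ 0` there are `g, g' ∈ SL₂` with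
`tdet A (cj g A) (cj g' A) ≠ 0`: with `A = (a b; c -a)`, `u(t) = (1 t; 0 1)`: `cj (u t) A` has the coordinates
`(a + t c, b - 2 t a - t² c, c)`, so `tdet A (cj (u t) A) (cj (u t') A) = ± c³ t t' (t - t')`, nonzero for `t = 1`,
`t' = 2` if `c ≠ 0`; similarly (transpose) if `b ≠ 0`; if `b = c = 0`: `cj (u 1) A = (a, -2a, 0)`,
`cj (v 1) A = (a, 0, 2a)`, `tdet = ± 4 a³`. `(g, g', A) ↦ tdet ...` is continuous, so there are such `g, g'` in the dense set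
`⋃ E L`, and they work in a neighbourhood of `A` with a bound `> 0`. By compactness of the unit sphere of the
traceless matrices finitely many `g, g'` suffice, with one `c > 0`; all are in one `E L₀` (`mono`);
homogeneity. Second: `tdet A B C` is bounded by `K nrm (brk A B) nrm C` (the entries of `brk A B` are, up to
factors `1, 2`, the minors of `A, B`) and `nrm (cj g' A) ≤ nrm g'² nrm A`; so the same `g` works. -/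
def S_conj3 : Prop :=
  ∀ E : ℕ → Set SL2, LenS E → ∃ (c : ℝ) (L₀ : ℕ) (K : ℝ), 0 < c ∧ 1 ≤ K ∧
    ∀ A : M2, A 1 1 = - A 0 0 → ∃ g ∈ E L₀, ∃ g' ∈ E L₀, nrm g.1 ≤ K ∧ nrm g'.1 ≤ K ∧
      c * nrm A ^ 3 ≤ |tdet A (cj g A) (cj g' A)| ∧ c * nrm A ^ 2 ≤ nrm (brk A (cj g A))

/-- Commutators near `1`. Proof. `g h g⁻¹ h⁻¹ - 1 = (g h - h g) g⁻¹ h⁻¹ = brk (tl g) (tl h) g⁻¹ h⁻¹`
(scalars commute), so `g h g⁻¹ h⁻¹ - 1 - brk (tl g) (tl h) = brk (tl g) (tl h) (g⁻¹ h⁻¹ - 1)`, and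
`nrm (g⁻¹ h⁻¹ - 1) ≤ 3 δ`, `nrm (brk X Y) ≤ 2 nrm X nrm Y`, `nrm (tl g) ≤ nrm (g - 1)` (`tl g` is the traceless part of
`g - 1`, the projection does not increase the norm). The traceless part of the left side is
`tl (g h g⁻¹ h⁻¹) - brk (tl g) (tl h)`. -/
def S_comm : Prop :=
  ∀ (g h : SL2) (δ : ℝ), 0 ≤ δ → δ ≤ 1 / 10 → nrm (g.1 - 1) ≤ δ → nrm (h.1 - 1) ≤ δ →
    nrm (tl (g * h * g⁻¹ * h⁻¹) - brk (tl g) (tl h)) ≤ 10 * δ ^ 3 ∧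
    nrm ((g * h * g⁻¹ * h⁻¹).1 - 1) ≤ 10 * δ ^ 2

/-- Near `1` the norm is controlled by the traceless part. Proof. `g - 1 = tl g + (τ - 1) 1`, `τ = tr g / 2`,
`1 = det g = τ² + det (tl g)`, so `|τ² - 1| ≤ nrm (tl g)²`, and `τ > 0` so
`|τ - 1| ≤ nrm (tl g)²`. -/
def S_tlnr : Prop :=
  ∀ g : SL2, nrm (g.1 - 1) ≤ 1 / 10 →
    nrm (g.1 - 1 - tl g) ≤ 2 * nrm (tl g) ^ 2 ∧ nrm (g.1 - 1) ≤ 2 * nrm (tl g) ∧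
    nrm (tl g) ≤ nrm (g.1 - 1) ∧ tl g 1 1 = - tl g 0 0 ∧
    ∀ h : SL2, tl (h * g * h⁻¹) = cj h (tl g)

/-- Small elements exist. Proof. The set `{g | nrm (g - 1) < δ, tl g ≠ 0}` is open and nonempty (unipotents), so it meets the dense
set `⋃ E L`; `S_tlnr`. -/
def S_start : Prop :=
  ∀ E : ℕ → Set SL2, LenS E → ∀ δ : ℝ, 0 < δ → ∃ (a : SL2) (l : ℕ) (e : ℝ), e < δ ∧ SmE E a l e

/-- Squaring the size. Proof. Take `g` from `S_conj3` for `A = tl a`; `a' = a h a⁻¹ h⁻¹`, `h = g a g⁻¹`,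
`nrm (h - 1) ≤ 2 K² e`, `tl h = cj g (tl a)` (`S_tlnr`); `S_comm` with `δ = 2 K² e`; so `tl a'` is
`brk (tl a) (cj g (tl a)) + O(e³)`, whose norm is between `c e²` and `2 K² e²`. `a' ∈ E (4 l + 4 L₀)`.
`nr` for `a'` by `S_tlnr`. -/
def S_step : Prop :=
  ∀ E : ℕ → Set SL2, LenS E → ∃ (c C es : ℝ) (L₁ : ℕ), 0 < c ∧ 1 ≤ C ∧ 0 < es ∧ es ≤ 1 ∧
    ∀ (a : SL2) (l : ℕ) (e : ℝ), SmE E a l e → e ≤ es →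
      ∃ (a' : SL2) (e' : ℝ), SmE E a' (4 * l + L₁) e' ∧ c * e ^ 2 ≤ e' ∧ e' ≤ C * e ^ 2

/-- Powers near `1`. Proof. For `n ≥ 0` and `g = 1 + Y`, `nrm Y ≤ δ`, `n δ ≤ 1`: `nrm (g^n) ≤ √2 e^(nδ)` or by
induction `nrm (g^n - 1 - n Y) ≤ 2 (n δ)²`: `g^(n+1) - 1 - (n+1) Y = (g^n - 1 - n Y) (1 + Y) + n Y²`, so with
`x_n = nrm (g^n - 1 - n Y)`: `x_(n+1) ≤ x_n (1 + δ) + n δ²` (the norm of `B + B Y` is at most `(1 + δ) nrm B`), hence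
`x_n ≤ (nδ)² e^(nδ)/2 ≤ 2 (nδ)²`. For `n < 0` use `g⁻¹ = 1 + adj Y`, and `nrm (adj Y + Y) = nrm (tr Y · 1) ≤ 2 δ²`
(`|tr Y| = |det Y| ≤ δ²` as `det (1 + Y) = 1`). -/
def S_pow : Prop :=
  ∀ (g : SL2) (δ : ℝ) (n : ℤ), nrm (g.1 - 1) ≤ δ → δ ≤ 1 / 10 → |(n : ℝ)| * δ ≤ 1 →
    nrm ((g ^ n).1 - 1 - (n : ℝ) • (g.1 - 1)) ≤ 10 * (|(n : ℝ)| * δ) ^ 2

/-- **Greedy step.** Proof. Let `a₁ = a`, `a₂ = g a g⁻¹`, `a₃ = g' a g'⁻¹` from `S_conj3` for `A = tl a`,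
`X_i = tl a_i`: `|tdet X₁ X₂ X₃| ≥ c e³`, `nrm X_i ≤ K² e`, `nrm (a_i - 1) ≤ 2 K² e`, `a_i ∈ E (l + 2 L₀)`.
Let `q ∈ Bs ρ`; by Cramer `tl q = ∑ t_i X_i` with `|t_i| ≤ C ρ / e`; `n_i = round t_i`, so
`|n_i| ≤ C' ρ / e` (`e ≤ ρ`); if `ρ₁` is small then `|n_i| nrm (a_i - 1) ≤ C'' ρ ≤ 1`, so by `S_pow`, `S_tlnr`
`a_i^(n_i) = 1 + n_i X_i + O(ρ²)` (`n_i nrm (a_i - 1 - X_i) = O(|n_i| e²) = O(ρ e) = O(ρ²)`). The product `w = a₁^(n₁) a₂^(n₂) a₃^(n₃) = 1 + ∑ n_i X_i + O(ρ²)`,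
`q = 1 + ∑ t_i X_i + O(ρ²)`, so `nrm (q - w) ≤ C (e + ρ²)` and `w⁻¹ q ∈ Bs (C₂ (e + ρ²))` (`S_Bs`). The length
is at most `(|n₁| + |n₂| + |n₃|) (l + 2 L₀)`; if the number of letters is smaller use `mono`. -/
def S_greedy : Prop :=
  ∀ E : ℕ → Set SL2, LenS E → ∃ (ρ₁ C₂ C₃ : ℝ) (L₂ : ℕ), 0 < ρ₁ ∧ ρ₁ ≤ 1 ∧ 1 ≤ C₂ ∧ 1 ≤ C₃ ∧
    ∀ (a : SL2) (l : ℕ) (e ρ : ℝ), SmE E a l e → e ≤ ρ → ρ ≤ ρ₁ →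
      NetE E ρ (C₂ * (e + ρ ^ 2)) (⌈C₃ * ρ / e⌉₊ * (l + L₂))

/-- **Net lemma** (II.3). Proof. Constants: `c, C, es, L₁` from `S_step`, `ρ₁, C₂, C₃, L₂` from `S_greedy`. Composition:
`NetE ρ η L`, `NetE η η' L'` give `NetE ρ η' (L + L')` (`LenS.mul`), and `NetE` is monotone in `η`, `L` and antitone in `ρ`.
`ρ₀ = min ρ₁ (1 / (4 C₂))`, `C₀ = 4 C₂`, `C₄ = C₂ (1 + C₀² / c)`.
Start: `a_0` of size `e_0`, so small that `C e_0 ≤ 1/4`, `e_0 ≤ es`, `C₀ e_0 ≤ ρ₀`, `C₄ e_0 ≤ ρ₁`, `C₄² e_0 ≤ 1`. By `S_step` a sequence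
`a_k`, sizes `e_k`, `c e_k² ≤ e_(k+1) ≤ C e_k² ≤ e_k / 4`, lengths `l_(k+1) = 4 l_k + L₁`.
(A) `NetE ρ₀ (C₀ e_0) L_0` for some `L_0`: for all `j` there is `L` with `NetE ρ₀ (max (ρ₀/2^j) (C₀ e_0)) L`: a
greedy step with `a_0`: for `ρ = max ...`, `e_0 ≤ ρ ≤ ρ₀`: `C₂ (e_0 + ρ²) ≤ C₀ e_0 / 4 + ρ / 4 ≤ ρ / 2`.
(B) From `NetE ρ₀ (C₀ e_(k-1)) L`: greedy step with `a_k`, `ρ = C₀ e_(k-1)`: `C₂ (e_k + C₀² e_(k-1)²) ≤ C₄ e_k`; again with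
`a_k`, `ρ = C₄ e_k`: `C₂ (e_k + C₄² e_k²) ≤ 2 C₂ e_k ≤ C₀ e_k`. Lengths:
`(⌈C₃ C₀ e_(k-1) / e_k⌉ + ⌈C₃ C₄⌉) (l_k + L₂) ≤ K₁ (l_k + L₂) / e_(k-1)` (as `e_(k-1)/e_k ≤ 1/(c e_(k-1))`).
(C) Let `m_k = l_k + L₁ + L₂`; `m_(k+1) ≤ 4 m_k`, so `m_(k+1) e_k ≤ m_k e_(k-1) ≤ ... ≤ m_1 e_0 =: μ`. So the cost of stage `k` is `≤ K₁ μ / e_(k-1)²`.
(D) `NetE ρ₀ (C₀ e_k) L` with `L ≤ K / e_(k-1)²` for `k ≥ 1`, `K = 2 (L_0 + K₁ μ)`, by induction, as `K / e_(k-2)² ≤ (K/16) / e_(k-1)²`.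
(E) Given `η ≤ 1` take the first `k` with `C₀ e_k ≤ η` (`e_k → 0`). `k = 0`: `L_0`. `k ≥ 1`: `e_(k-1) > η / C₀`, so
`L ≤ K C₀² / η²`. Finally `L ≥ 1` by `mono` and the symmetry of `Bs`. -/
def S_Net : Prop :=
  ∀ E : ℕ → Set SL2, LenS E → ∃ ρ₀ C₇ : ℝ, 0 < ρ₀ ∧ 1 ≤ C₇ ∧
    ∀ p ∈ Bs ρ₀, ∀ η : ℝ, 0 < η → η ≤ 1 →
      ∃ L : ℕ, 1 ≤ L ∧ (L : ℝ) ≤ C₇ / η ^ 2 ∧ ∃ e ∈ E L, p⁻¹ * e ∈ Bs η

end Pool.Agent.MPEF
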