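import Pool.Agent.Lib.MP_ef3f0f_gt.N.Spec

set_option autoImplicit false

/-! MP_ef3f0f_gt, part II.3, module Bs: balls around `1` in `SL₂(ℝ)`. -/

namespace Pool.Agent.MPEF

open scoped Pointwise

private theorem Bs_adj_sub (A : M2) : (A - 1).adjugate = A.adjugate - 1 := by
  ext i j
  fin_cases i <;> fin_cases j <;> simp [Matrix.adjugate_fin_two]

private theorem Bs_compactM (hn : S_nrm) (B : M2) (s : ℝ) : IsCompact {A : M2 | nrm (A - B) ≤ s} := by
  obtain ⟨h0, h00, hadd, hsub, hsmul, hmul, hadj, hent, hsq, hcont, -⟩ := hn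
  have hcl : IsClosed {A : M2 | nrm (A - B) ≤ s} :=
    isClosed_le (hcont.comp (continuous_id.sub continuous_const)) continuous_const
  have hK : IsCompact (Set.pi Set.univ fun i : Fin 2 => Set.pi Set.univ fun j : Fin 2 =>
      Set.Icc (B i j - s) (B i j + s)) :=
    isCompact_univ_pi fun i => isCompact_univ_pi fun j => isCompact_Icc
  refine IsCompact.of_isClosed_subset hK hcl ?_
  intro A hA i _ j _
  have h1 := (hent (A - B) i j).trans hA
  rw [Matrix.sub_apply, abs_le] at h1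
  have h2 : B i j - s ≤ A i j := by linarith [h1.1]
  have h3 : A i j ≤ B i j + s := by linarith [h1.2]
  exact ⟨h2, h3⟩

private theorem Bs_closedEmb : Topology.IsClosedEmbedding (fun g : SL2 => g.1) := by
  have h : IsClosed {A : M2 | A.det = 1} :=
    isClosed_eq (Continuous.matrix_det continuous_id) continuous_const
  exact h.isClosedEmbedding_subtypeVal

private theorem Bs_basis (hn : S_nrm) (U : Set SL2) (hU : U ∈ nhds (1 : SL2)) :
    ∃ s : ℝ, 0 < s ∧ Bs s ⊆ U := by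
  obtain ⟨h0, h00, hadd, hsub, hsmul, hmul, hadj, hent, hsq, hcont, -⟩ := hn
  have hU' : U ∈ Filter.comap (fun g : SL2 => g.1) (nhds ((1 : SL2).1)) := by
    have := Bs_closedEmb.toIsEmbedding.toIsInducing.nhds_eq_comap (1 : SL2)
    rwa [this] at hU
  obtain ⟨V, hV, hVU⟩ := Filter.mem_comap.1 hU'
  obtain ⟨ε, hε, hball⟩ := (Metric.mem_nhds_iff (α := Fin 2 → Fin 2 → ℝ)).1 hV
  refine ⟨ε, hε, ?_⟩
  intro g hg
  apply hVU
  apply hball
  refine (dist_pi_lt_iff hε).2 fun i => (dist_pi_lt_iff hε).2 fun j => ?_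
  have h1 := hent (g.1 - 1) i j
  rw [Matrix.sub_apply] at h1
  exact lt_of_le_of_lt h1 hg

theorem tBs : S_nrm → S_Bs := by
  intro hn
  have hn' := hn
  obtain ⟨h0, h00, hadd, hsub, hsmul, hmul, hadj, hent, hsq, hcont, hone, hinv, hninv, hge⟩ := hn'
  have hz : nrm (0 : M2) = 0 := (h00 0).2 rfl
  have hs2 : Real.sqrt 2 ≤ 2 := by
    rw [Real.sqrt_le_left (by norm_num)]; norm_num
  refine ⟨?_, ?_, ?_, ?_, ?_, ?_, ?_, ?_, ?_, ?_, ?_⟩
  · intro s
    exact isOpen_lt (hcont.comp (continuous_subtype_val.sub continuous_const)) continuous_const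
  · intro s hs
    show nrm ((1 : SL2).1 - 1) < s
    have : ((1 : SL2).1 - 1 : M2) = 0 := by
      rw [Matrix.SpecialLinearGroup.coe_one]; exact sub_self _
    rw [this, hz]
    exact hs
  · intro s g
    show nrm ((g⁻¹).1 - 1) < s ↔ nrm (g.1 - 1) < s
    rw [hinv, ← Bs_adj_sub, hadj]
  · intro s t x hx
    obtain ⟨g, hg, h, hh, rfl⟩ := Set.mem_mul.1 hx
    have hg' : nrm (g.1 - 1) < s := hg
    have hh' : nrm (h.1 - 1) < t := hh
    show nrm ((g * h).1 - 1) < s + t + s * t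
    have e1 : ((g * h).1 - 1 : M2) = (g.1 - 1) * (h.1 - 1) + ((g.1 - 1) + (h.1 - 1)) := by
      rw [Matrix.SpecialLinearGroup.coe_mul]
      noncomm_ring
    rw [e1]
    have h1 := hadd ((g.1 - 1) * (h.1 - 1)) ((g.1 - 1) + (h.1 - 1))
    have h2 := hadd (g.1 - 1) (h.1 - 1)
    have h3 := hmul (g.1 - 1) (h.1 - 1)
    have h4 : nrm (g.1 - 1) * nrm (h.1 - 1) ≤ s * t :=
      mul_le_mul hg'.le hh'.le (h0 _) ((h0 _).trans hg'.le)
    linarith
  · intro s t hst g hg
    exact lt_of_lt_of_le hg hst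
  · intro U hU
    exact Bs_basis hn U hU
  · intro s
    exact Bs_closedEmb.isCompact_preimage (Bs_compactM hn 1 s)
  · intro s
    have h1 := Bs_closedEmb.isCompact_preimage (Bs_compactM hn 0 s)
    have h2 : {g : SL2 | nrm g.1 ≤ s} = (fun g : SL2 => g.1) ⁻¹' {A : M2 | nrm (A - 0) ≤ s} := by
      ext g
      simp
    rw [h2]
    exact h1
  · intro s g hg
    have hg' : nrm (g.1 - 1) < s := hg
    have h1 := hadd (g.1 - 1) 1
    rw [sub_add_cancel, hone] at h1
    linarith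
  · intro x g
    have e1 : ((x⁻¹ * g * x).1 - 1 : M2) = (x⁻¹).1 * (g.1 - 1) * x.1 := by
      have e2 : (x⁻¹).1 * x.1 = (1 : M2) := by
        rw [← Matrix.SpecialLinearGroup.coe_mul, inv_mul_cancel, Matrix.SpecialLinearGroup.coe_one]
      rw [Matrix.SpecialLinearGroup.coe_mul, Matrix.SpecialLinearGroup.coe_mul, mul_sub, sub_mul,
        mul_one, e2]
    rw [e1]
    have h1 := hmul ((x⁻¹).1 * (g.1 - 1)) x.1
    have h2 := hmul (x⁻¹).1 (g.1 - 1)
    rw [hninv] at h2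
    calc nrm ((x⁻¹).1 * (g.1 - 1) * x.1) ≤ nrm ((x⁻¹).1 * (g.1 - 1)) * nrm x.1 := h1
      _ ≤ (nrm x.1 * nrm (g.1 - 1)) * nrm x.1 := mul_le_mul_of_nonneg_right h2 (h0 _)
      _ = nrm x.1 ^ 2 * nrm (g.1 - 1) := by ring
  · intro p q
    have e1 : ((p⁻¹ * q).1 - 1 : M2) = (p⁻¹).1 * (q.1 - p.1) := by
      have e2 : (p⁻¹).1 * p.1 = (1 : M2) := by
        rw [← Matrix.SpecialLinearGroup.coe_mul, inv_mul_cancel, Matrix.SpecialLinearGroup.coe_one]
      rw [Matrix.SpecialLinearGroup.coe_mul, mul_sub, e2]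
    rw [e1]
    have h2 := hmul (p⁻¹).1 (q.1 - p.1)
    rw [hninv] at h2
    exact h2

end Pool.Agent.MPEF
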