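import Pool.Agent.Lib.MP_ef3f0f_gt.A.Defs

set_option autoImplicit false

/-!
# MP_ef3f0f_gt, Part II.3 (the net lemma): definitions

Frobenius norm, balls around `1` in `SL₂(ℝ)`, length functions on dense subgroups.
-/

namespace Pool.Agent.MPEF

open scoped Pointwise

abbrev M2 : Type := Matrix (Fin 2) (Fin 2) ℝ

/-- Frobenius norm. -/
noncomputable def nrm (A : M2) : ℝ :=
  Real.sqrt (A 0 0 ^ 2 + A 0 1 ^ 2 + A 1 0 ^ 2 + A 1 1 ^ 2)

/-- The ball around `1` in `SL₂(ℝ)`. -/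
def Bs (s : ℝ) : Set SL2 := {g | nrm (g.1 - 1) < s}

/-- A length structure on a dense subgroup of `SL₂(ℝ)`: `E L` is the set of the elements of
length at most `L`. -/
structure LenS (E : ℕ → Set SL2) : Prop where
  one : (1 : SL2) ∈ E 0
  mono : ∀ L L' : ℕ, L ≤ L' → E L ⊆ E L'
  mul : ∀ (L L' : ℕ) (g h : SL2), g ∈ E L → h ∈ E L' → g * h ∈ E (L + L')
  inv : ∀ (L : ℕ) (g : SL2), g ∈ E L → g⁻¹ ∈ E L
  dense : Dense (⋃ L, E L)

/-- Traceless part. -/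
noncomputable def tl (g : SL2) : M2 := g.1 - (tr2 g / 2) • (1 : M2)

/-- Bracket. -/
def brk (A B : M2) : M2 := A * B - B * A

/-- Conjugation of a matrix. -/
def cj (g : SL2) (A : M2) : M2 := g.1 * A * (g⁻¹).1

/-- The determinant of three traceless matrices in the coordinates `(A₀₀, A₀₁, A₁₀)`. -/
def tdet (A B C : M2) : ℝ :=
  A 0 0 * (B 0 1 * C 1 0 - B 1 0 * C 0 1) - A 0 1 * (B 0 0 * C 1 0 - B 1 0 * C 0 0) +
    A 1 0 * (B 0 0 * C 0 1 - B 0 1 * C 0 0)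

/-- `a` is a small element of length at most `l` and size `e`. -/
structure SmE (E : ℕ → Set SL2) (a : SL2) (l : ℕ) (e : ℝ) : Prop where
  mem : a ∈ E l
  pos : 0 < e
  sz : nrm (tl a) = e
  nr : nrm (a.1 - 1) ≤ 2 * e

/-- `E L` is an `η`-net for the ball of radius `ρ`. -/
def NetE (E : ℕ → Set SL2) (ρ η : ℝ) (L : ℕ) : Prop :=
  ∀ p ∈ Bs ρ, ∃ e ∈ E L, e⁻¹ * p ∈ Bs η

end Pool.Agent.MPEF
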