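import Pool.Agent.Lib.MP_ef3f0f_gt.N.Spec

set_option autoImplicit false

/-! MP_ef3f0f_gt, part II.3, module Net: the net lemma. -/

namespace Pool.Agent.MPEF

open scoped Pointwise

private theorem Net_comp (E : ℕ → Set SL2) (hE : LenS E) (ρ η η' : ℝ) (L L' : ℕ)
    (h : NetE E ρ η L) (h' : NetE E η η' L') : NetE E ρ η' (L + L') := by
  intro p hp
  obtain ⟨x, hx, hxp⟩ := h p hp
  obtain ⟨y, hy, hyp⟩ := h' _ hxp
  refine ⟨x * y, hE.mul _ _ _ _ hx hy, ?_⟩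
  have e1 : (x * y)⁻¹ * p = y⁻¹ * (x⁻¹ * p) := by group
  rw [e1]
  exact hyp

private theorem Net_mono (E : ℕ → Set SL2) (hE : LenS E) (hB : S_Bs) (ρ η η' : ℝ) (L L' : ℕ)
    (hη : η ≤ η') (hL : L ≤ L') (h : NetE E ρ η L) : NetE E ρ η' L' := by
  obtain ⟨-, -, -, -, hmono, -⟩ := hB
  intro p hp
  obtain ⟨x, hx, hxp⟩ := h p hp
  exact ⟨x, hE.mono _ _ hL hx, hmono _ _ hη hxp⟩

private theorem Net_A (E : ℕ → Set SL2) (hE : LenS E) (hB : S_Bs) (ρ₁ C₂ e0 ρ₀ : ℝ) (M : ℝ → ℕ)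
    (hg : ∀ ρ, e0 ≤ ρ → ρ ≤ ρ₁ → NetE E ρ (C₂ * (e0 + ρ ^ 2)) (M ρ))
    (h1 : 1 ≤ C₂) (he : 0 < e0) (hρ₀ : 0 < ρ₀) (h2 : ρ₀ ≤ ρ₁) (h3 : C₂ * ρ₀ ≤ 1 / 4)
    (h4 : 4 * C₂ * e0 ≤ ρ₀) : ∃ L, NetE E ρ₀ (4 * C₂ * e0) L := by
  have hce : e0 ≤ 4 * C₂ * e0 := by nlinarith
  have hstep : ∀ j : ℕ, ∃ L, NetE E ρ₀ (max (ρ₀ / 2 ^ j) (4 * C₂ * e0)) L := by
    intro j
    induction j with
    | zero =>
      refine ⟨0, ?_⟩
      intro p hp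
      refine ⟨1, hE.one, ?_⟩
      rw [inv_one, one_mul]
      obtain ⟨-, -, -, -, hmono, -⟩ := hB
      apply hmono ρ₀ _ _ hp
      rw [pow_zero, div_one]
      exact le_max_left _ _
    | succ j ih =>
      obtain ⟨L, hL⟩ := ih
      have hle : max (ρ₀ / 2 ^ j) (4 * C₂ * e0) ≤ ρ₀ :=
        max_le (div_le_self hρ₀.le (one_le_pow₀ (by norm_num))) h4
      have h5 := hg (max (ρ₀ / 2 ^ j) (4 * C₂ * e0)) (hce.trans (le_max_right _ _)) (hle.trans h2)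
      refine ⟨_, Net_mono E hE hB _ _ _ _ _ ?_ (le_refl _) (Net_comp E hE _ _ _ _ _ hL h5)⟩
      set r := max (ρ₀ / 2 ^ j) (4 * C₂ * e0) with hr
      have hr1 : 4 * C₂ * e0 ≤ r := le_max_right _ _
      have hr0 : 0 < r := lt_of_lt_of_le (lt_of_lt_of_le he hce) hr1
      have h6 : C₂ * (e0 + r ^ 2) ≤ r / 2 := by
        have h7 : C₂ * r ≤ 1 / 4 := (mul_le_mul_of_nonneg_left hle (by linarith)).trans h3
        nlinarith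
      refine h6.trans ?_
      have h8 : ρ₀ / 2 ^ (j + 1) = (ρ₀ / 2 ^ j) / 2 := by
        rw [pow_succ, div_div]
      rw [h8, hr]
      rcases le_total (ρ₀ / 2 ^ j) (4 * C₂ * e0) with h | h
      · rw [max_eq_right h]
        exact le_trans (by linarith) (le_max_right _ _)
      · rw [max_eq_left h]
        exact le_max_left _ _
  obtain ⟨j, hj⟩ := exists_pow_lt_of_lt_one (x := 4 * C₂ * e0 / ρ₀) (y := (1 / 2 : ℝ))
    (by positivity) (by norm_num)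
  obtain ⟨L, hL⟩ := hstep j
  refine ⟨L, ?_⟩
  have h9 : ρ₀ / 2 ^ j ≤ 4 * C₂ * e0 := by
    have h10 : (1 / 2 : ℝ) ^ j * ρ₀ < 4 * C₂ * e0 := by
      rwa [lt_div_iff₀ hρ₀] at hj
    have h11 : ρ₀ / 2 ^ j = (1 / 2 : ℝ) ^ j * ρ₀ := by
      rw [one_div, inv_pow]; ring
    rw [h11]
    exact h10.le
  rwa [max_eq_right h9] at hL

private theorem Net_B (E : ℕ → Set SL2) (hE : LenS E) (hB : S_Bs) (ρ₁ C₂ C₃ C₄ c : ℝ) (L₂ : ℕ)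
    (hg : ∀ (a : SL2) (l : ℕ) (e ρ : ℝ), SmE E a l e → e ≤ ρ → ρ ≤ ρ₁ →
      NetE E ρ (C₂ * (e + ρ ^ 2)) (⌈C₃ * ρ / e⌉₊ * (l + L₂)))
    (h1 : 1 ≤ C₂) (h3 : 1 ≤ C₃) (hc : 0 < c) (hC4 : C₄ = C₂ * (1 + (4 * C₂) ^ 2 / c))
    (a' : SL2) (l' : ℕ) (e e' ρ₀ : ℝ) (L : ℕ) (hS : SmE E a' l' e') (he : 0 < e)
    (hce : c * e ^ 2 ≤ e') (hq : e' ≤ e / 4) (h4 : 4 * C₂ * e ≤ ρ₁) (h5 : C₄ * e ≤ ρ₁)
    (h6 : C₄ ^ 2 * e ≤ 1) (he1 : e ≤ 1) (hN : NetE E ρ₀ (4 * C₂ * e) L) :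
    ∃ L' : ℕ, NetE E ρ₀ (4 * C₂ * e') L' ∧
      (L' : ℝ) ≤ L + (C₃ * (4 * C₂) / c + C₃ * C₄ + 2) / e * (l' + L₂) := by
  have he' : 0 < e' := hS.pos
  have hC4' : C₂ ≤ C₄ := by
    rw [hC4]
    have : 0 ≤ C₂ * ((4 * C₂) ^ 2 / c) := by positivity
    linarith
  have hC40 : 1 ≤ C₄ := h1.trans hC4'
  have n1 := hg a' l' e' (4 * C₂ * e) hS (by nlinarith) h4
  have n2 := hg a' l' e' (C₄ * e') hS (by nlinarith) (le_trans (by nlinarith) h5)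
  have k1 : C₂ * (e' + (4 * C₂ * e) ^ 2) ≤ C₄ * e' := by
    rw [hC4]
    have : (4 * C₂ * e) ^ 2 ≤ (4 * C₂) ^ 2 / c * e' := by
      rw [div_mul_eq_mul_div, le_div_iff₀ hc]
      have := mul_le_mul_of_nonneg_left hce (sq_nonneg (4 * C₂))
      calc (4 * C₂ * e) ^ 2 * c = (4 * C₂) ^ 2 * (c * e ^ 2) := by ring
        _ ≤ (4 * C₂) ^ 2 * e' := this
    calc C₂ * (e' + (4 * C₂ * e) ^ 2) ≤ C₂ * (e' + (4 * C₂) ^ 2 / c * e') := by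
          apply mul_le_mul_of_nonneg_left _ (by linarith)
          linarith
      _ = C₂ * (1 + (4 * C₂) ^ 2 / c) * e' := by ring
  have k2 : C₂ * (e' + (C₄ * e') ^ 2) ≤ 4 * C₂ * e' := by
    have h7 : C₄ ^ 2 * e' ≤ 1 := by
      have : C₄ ^ 2 * e' ≤ C₄ ^ 2 * e := mul_le_mul_of_nonneg_left (by linarith) (sq_nonneg _)
      linarith
    have h8 : (C₄ * e') ^ 2 ≤ e' := by
      calc (C₄ * e') ^ 2 = (C₄ ^ 2 * e') * e' := by ring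
        _ ≤ 1 * e' := mul_le_mul_of_nonneg_right h7 he'.le
        _ = e' := one_mul _
    nlinarith
  have n3 := Net_mono E hE hB _ _ _ _ _ k1 (le_refl _) n1
  have n4 := Net_mono E hE hB _ _ _ _ _ k2 (le_refl _) n2
  refine ⟨_, Net_comp E hE _ _ _ _ _ (Net_comp E hE _ _ _ _ _ hN n3) n4, ?_⟩
  have c1 : ((⌈C₃ * (4 * C₂ * e) / e'⌉₊ : ℕ) : ℝ) ≤ C₃ * (4 * C₂) / c / e + 1 := by
    have h8 : C₃ * (4 * C₂ * e) / e' ≤ C₃ * (4 * C₂) / c / e := by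
      rw [div_div, div_le_div_iff₀ he' (by positivity)]
      calc C₃ * (4 * C₂ * e) * (c * e) = C₃ * (4 * C₂) * (c * e ^ 2) := by ring
        _ ≤ C₃ * (4 * C₂) * e' := mul_le_mul_of_nonneg_left hce (by positivity)
    have h9 := (Nat.ceil_lt_add_one (a := C₃ * (4 * C₂ * e) / e') (by positivity)).le
    linarith
  have c2 : ((⌈C₃ * (C₄ * e') / e'⌉₊ : ℕ) : ℝ) ≤ C₃ * C₄ + 1 := by
    have h8 : C₃ * (C₄ * e') / e' = C₃ * C₄ := by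
      field_simp
    rw [h8]
    exact (Nat.ceil_lt_add_one (a := C₃ * C₄) (by positivity)).le
  have c3 : C₃ * (4 * C₂) / c / e + 1 + (C₃ * C₄ + 1) ≤
      (C₃ * (4 * C₂) / c + C₃ * C₄ + 2) / e := by
    have h9 : C₃ * C₄ + 2 ≤ (C₃ * C₄ + 2) / e := by
      rw [le_div_iff₀ he]
      have : 0 ≤ C₃ * C₄ + 2 := by positivity
      nlinarith
    have h10 : (C₃ * (4 * C₂) / c + C₃ * C₄ + 2) / e =
        C₃ * (4 * C₂) / c / e + (C₃ * C₄ + 2) / e := by ring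
    rw [h10]
    linarith
  push_cast
  have h11 : (0 : ℝ) ≤ (l' : ℝ) + L₂ := by positivity
  have h12 := mul_le_mul_of_nonneg_right ((add_le_add c1 c2).trans c3) h11
  linarith

private theorem Net_D (E : ℕ → Set SL2) (C₀ K₁ ρ₀ μ : ℝ) (L₀ L₁ L₂ : ℕ) (l : ℕ → ℕ) (e : ℕ → ℝ)
    (hpos : ∀ k, 0 < e k) (he1 : ∀ k, e k ≤ 1)
    (hl : ∀ k, l (k + 1) = 4 * l k + L₁) (hq : ∀ k, e (k + 1) ≤ e k / 4) (hK₁ : 0 ≤ K₁)
    (hμ : μ = ((l 1 : ℝ) + L₁ + L₂) * e 0)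
    (h0 : NetE E ρ₀ (C₀ * e 0) L₀)
    (hB : ∀ k L, NetE E ρ₀ (C₀ * e k) L → ∃ L' : ℕ, NetE E ρ₀ (C₀ * e (k + 1)) L' ∧
      (L' : ℝ) ≤ L + K₁ / e k * (l (k + 1) + L₂)) :
    ∀ k, ∃ L : ℕ, NetE E ρ₀ (C₀ * e (k + 1)) L ∧ (L : ℝ) ≤ 2 * (L₀ + K₁ * μ) / e k ^ 2 := by
  have hμ0 : 0 ≤ μ := by
    rw [hμ]
    have := (hpos 0).le
    positivity
  have hm : ∀ k, ((l (k + 1) : ℝ) + L₁ + L₂) * e k ≤ μ := by
    intro k
    induction k with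
    | zero => rw [hμ]
    | succ k ih =>
      have h1 : ((l (k + 1 + 1) : ℕ) : ℝ) = 4 * (l (k + 1) : ℝ) + L₁ := by
        rw [hl (k + 1)]
        push_cast
        ring
      rw [h1]
      have h2 : (0 : ℝ) ≤ L₁ := Nat.cast_nonneg _
      have h3 : (0 : ℝ) ≤ L₂ := Nat.cast_nonneg _
      have h4 : (0 : ℝ) ≤ l (k + 1) := Nat.cast_nonneg _
      calc (4 * (l (k + 1) : ℝ) + L₁ + L₁ + L₂) * e (k + 1)
          ≤ (4 * ((l (k + 1) : ℝ) + L₁ + L₂)) * e (k + 1) :=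
            mul_le_mul_of_nonneg_right (by linarith) (hpos _).le
        _ ≤ (4 * ((l (k + 1) : ℝ) + L₁ + L₂)) * (e k / 4) :=
            mul_le_mul_of_nonneg_left (hq k) (by positivity)
        _ = ((l (k + 1) : ℝ) + L₁ + L₂) * e k := by ring
        _ ≤ μ := ih
  have hcost : ∀ k, K₁ / e k * (l (k + 1) + L₂) ≤ K₁ * μ / e k ^ 2 := by
    intro k
    have h1 := hm k
    have h2 : (0 : ℝ) ≤ L₁ := Nat.cast_nonneg _
    rw [div_mul_eq_mul_div, div_le_div_iff₀ (hpos k) (by have := hpos k; positivity)]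
    have h3 : ((l (k + 1) : ℝ) + L₂) * e k ≤ μ :=
      le_trans (mul_le_mul_of_nonneg_right (by linarith) (hpos k).le) h1
    calc K₁ * ((l (k + 1) : ℝ) + L₂) * e k ^ 2 = (K₁ * e k) * (((l (k + 1) : ℝ) + L₂) * e k) := by
          ring
      _ ≤ (K₁ * e k) * μ := mul_le_mul_of_nonneg_left h3 (mul_nonneg hK₁ (hpos k).le)
      _ = K₁ * μ * e k := by ring
  intro k
  induction k with
  | zero =>
    obtain ⟨L', h1, h2⟩ := hB 0 L₀ h0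
    refine ⟨L', h1, h2.trans ?_⟩
    have h3 := hcost 0
    have h4 : (L₀ : ℝ) ≤ L₀ / e 0 ^ 2 := by
      rw [le_div_iff₀ (by have := hpos 0; positivity)]
      have : e 0 ^ 2 ≤ 1 := pow_le_one₀ (hpos 0).le (he1 0)
      exact mul_le_of_le_one_right (Nat.cast_nonneg _) this
    have h5 : 2 * ((L₀ : ℝ) + K₁ * μ) / e 0 ^ 2 = 2 * (L₀ / e 0 ^ 2) + 2 * (K₁ * μ / e 0 ^ 2) := by
      ring
    rw [h5]
    have h6 : 0 ≤ (L₀ : ℝ) / e 0 ^ 2 := by positivity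
    have h7 : 0 ≤ K₁ * μ / e 0 ^ 2 := by positivity
    linarith
  | succ k ih =>
    obtain ⟨L, hL, hLb⟩ := ih
    obtain ⟨L', h1, h2⟩ := hB (k + 1) L hL
    refine ⟨L', h1, h2.trans ?_⟩
    have h3 := hcost (k + 1)
    have hek := hpos k
    have hek1 := hpos (k + 1)
    have h4 : 2 * ((L₀ : ℝ) + K₁ * μ) / e k ^ 2 ≤ (2 * ((L₀ : ℝ) + K₁ * μ) / 16) / e (k + 1) ^ 2 := by
      rw [div_le_div_iff₀ (by positivity) (by positivity)]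
      have h5 : e (k + 1) ^ 2 ≤ e k ^ 2 / 16 := by
        have := pow_le_pow_left₀ hek1.le (hq k) 2
        calc e (k + 1) ^ 2 ≤ (e k / 4) ^ 2 := this
          _ = e k ^ 2 / 16 := by ring
      have h6 : 0 ≤ 2 * ((L₀ : ℝ) + K₁ * μ) := by positivity
      calc 2 * ((L₀ : ℝ) + K₁ * μ) * e (k + 1) ^ 2 ≤ 2 * ((L₀ : ℝ) + K₁ * μ) * (e k ^ 2 / 16) :=
            mul_le_mul_of_nonneg_left h5 h6
        _ = 2 * ((L₀ : ℝ) + K₁ * μ) / 16 * e k ^ 2 := by ring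
    have h5 : 2 * ((L₀ : ℝ) + K₁ * μ) / e (k + 1) ^ 2 =
        (2 * ((L₀ : ℝ) + K₁ * μ) / 16) / e (k + 1) ^ 2 + (15 / 8 * L₀ / e (k + 1) ^ 2 +
          15 / 8 * (K₁ * μ / e (k + 1) ^ 2)) := by
      ring
    rw [h5]
    have h6 : 0 ≤ 15 / 8 * (L₀ : ℝ) / e (k + 1) ^ 2 := by positivity
    have h7 : 0 ≤ K₁ * μ / e (k + 1) ^ 2 := by positivity
    linarith

private theorem Net_E (E : ℕ → Set SL2) (hE : LenS E) (hB : S_Bs) (C₀ K ρ₀ : ℝ) (L₀ : ℕ) (e : ℕ → ℝ)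
    (hpos : ∀ k, 0 < e k) (hq : ∀ k, e (k + 1) ≤ e k / 4) (hC₀ : 0 < C₀) (hK : 0 ≤ K)
    (h0 : NetE E ρ₀ (C₀ * e 0) L₀)
    (hD : ∀ k, ∃ L : ℕ, NetE E ρ₀ (C₀ * e (k + 1)) L ∧ (L : ℝ) ≤ K / e k ^ 2)
    (η : ℝ) (hη : 0 < η) (hη1 : η ≤ 1) :
    ∃ L : ℕ, 1 ≤ L ∧ (L : ℝ) ≤ (L₀ + 1 + K * C₀ ^ 2) / η ^ 2 ∧ NetE E ρ₀ η L := by
  have hη2 : η ^ 2 ≤ 1 := pow_le_one₀ hη.le hη1
  have hη3 : 1 ≤ 1 / η ^ 2 := by
    rw [le_div_iff₀ (by positivity), one_mul]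
    exact hη2
  have hsplit : ((L₀ : ℝ) + 1 + K * C₀ ^ 2) / η ^ 2 =
      L₀ / η ^ 2 + 1 / η ^ 2 + K * C₀ ^ 2 / η ^ 2 := by ring
  have hK' : 0 ≤ K * C₀ ^ 2 / η ^ 2 := by positivity
  have hL0' : (0 : ℝ) ≤ L₀ / η ^ 2 := by positivity
  have hgeo : ∀ k, e k ≤ e 0 * (1 / 4) ^ k := by
    intro k
    induction k with
    | zero => simp
    | succ k ih =>
      rw [pow_succ]
      have := hq k
      calc e (k + 1) ≤ e k / 4 := hq k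
        _ ≤ e 0 * (1 / 4) ^ k / 4 := by linarith
        _ = e 0 * ((1 / 4) ^ k * (1 / 4)) := by ring
  have hex : ∃ k, C₀ * e k ≤ η := by
    have h00 := hpos 0
    obtain ⟨k, hk⟩ := exists_pow_lt_of_lt_one (x := η / (C₀ * e 0)) (y := (1 / 4 : ℝ))
      (by positivity) (by norm_num)
    refine ⟨k, ?_⟩
    rw [lt_div_iff₀ (by positivity)] at hk
    have := mul_le_mul_of_nonneg_left (hgeo k) hC₀.le
    calc C₀ * e k ≤ C₀ * (e 0 * (1 / 4) ^ k) := this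
      _ = (1 / 4) ^ k * (C₀ * e 0) := by ring
      _ ≤ η := hk.le
  classical
  rcases Nat.eq_zero_or_pos (Nat.find hex) with hz | hz
  · have h1 : C₀ * e 0 ≤ η := by
      have := Nat.find_spec hex
      rwa [hz] at this
    refine ⟨L₀ + 1, by omega, ?_, Net_mono E hE hB _ _ _ _ _ h1 (Nat.le_succ _) h0⟩
    have h2 : (L₀ : ℝ) ≤ L₀ / η ^ 2 := by
      rw [le_div_iff₀ (by positivity)]
      exact mul_le_of_le_one_right (Nat.cast_nonneg _) hη2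
    rw [hsplit]
    push_cast
    linarith
  · obtain ⟨j, hj⟩ : ∃ j, Nat.find hex = j + 1 := ⟨Nat.find hex - 1, by omega⟩
    have h1 : C₀ * e (j + 1) ≤ η := by
      have := Nat.find_spec hex
      rwa [hj] at this
    have h2 : ¬ C₀ * e j ≤ η := Nat.find_min hex (by omega)
    have h3 : η < C₀ * e j := not_le.1 h2
    obtain ⟨L, hL, hLb⟩ := hD j
    refine ⟨L + 1, by omega, ?_, Net_mono E hE hB _ _ _ _ _ h1 (Nat.le_succ _) hL⟩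
    have h4 : K / e j ^ 2 ≤ K * C₀ ^ 2 / η ^ 2 := by
      have hej := hpos j
      rw [div_le_div_iff₀ (by positivity) (by positivity)]
      have h5 : η ^ 2 ≤ (C₀ * e j) ^ 2 := pow_le_pow_left₀ hη.le h3.le 2
      calc K * η ^ 2 ≤ K * (C₀ * e j) ^ 2 := mul_le_mul_of_nonneg_left h5 hK
        _ = K * C₀ ^ 2 * e j ^ 2 := by ring
    rw [hsplit]
    push_cast
    linarith

theorem tNet : S_start → S_step → S_greedy → S_Bs → S_Net := by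
  intro hst hsp hgr hB E hE
  obtain ⟨c, C, es, L₁, hc, hC, hes, hes1, hstep⟩ := hsp E hE
  obtain ⟨ρ₁, C₂, C₃, L₂, hρ₁, hρ₁1, hC₂, hC₃, hg⟩ := hgr E hE
  set ρ₀ : ℝ := min ρ₁ (1 / (4 * C₂)) with hρ₀
  have hρ₀0 : 0 < ρ₀ := lt_min hρ₁ (by positivity)
  have hρ₀1 : ρ₀ ≤ ρ₁ := min_le_left _ _
  have hρ₀2 : C₂ * ρ₀ ≤ 1 / 4 := by
    have h1 : ρ₀ ≤ 1 / (4 * C₂) := min_le_right _ _
    rw [le_div_iff₀ (by positivity)] at h1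
    linarith
  set C₄ : ℝ := C₂ * (1 + (4 * C₂) ^ 2 / c) with hC₄
  have hC₄0 : 0 < C₄ := by positivity
  set δ : ℝ := min (min (1 / (4 * C)) es) (min (ρ₀ / (4 * C₂)) (min (ρ₁ / C₄) (1 / C₄ ^ 2))) with hδ
  have hδ0 : 0 < δ := by
    refine lt_min (lt_min ?_ hes) (lt_min ?_ (lt_min ?_ ?_)) <;> positivity
  obtain ⟨a0, l0, e0, he0δ, hS0⟩ := hst E hE δ hδ0
  have he00 : 0 < e0 := hS0.pos
  have b1 : C * e0 ≤ 1 / 4 := by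
    have h1 : e0 ≤ 1 / (4 * C) := he0δ.le.trans ((min_le_left _ _).trans (min_le_left _ _))
    rw [le_div_iff₀ (by positivity)] at h1
    linarith
  have b2 : e0 ≤ es := he0δ.le.trans ((min_le_left _ _).trans (min_le_right _ _))
  have b3 : 4 * C₂ * e0 ≤ ρ₀ := by
    have h1 : e0 ≤ ρ₀ / (4 * C₂) := he0δ.le.trans ((min_le_right _ _).trans (min_le_left _ _))
    rw [le_div_iff₀ (by positivity)] at h1
    linarith
  have b4 : C₄ * e0 ≤ ρ₁ := by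
    have h1 : e0 ≤ ρ₁ / C₄ :=
      he0δ.le.trans ((min_le_right _ _).trans ((min_le_right _ _).trans (min_le_left _ _)))
    rw [le_div_iff₀ (by positivity)] at h1
    linarith
  have b5 : C₄ ^ 2 * e0 ≤ 1 := by
    have h1 : e0 ≤ 1 / C₄ ^ 2 :=
      he0δ.le.trans ((min_le_right _ _).trans ((min_le_right _ _).trans (min_le_right _ _)))
    rw [le_div_iff₀ (by positivity)] at h1
    linarith
  have hnext : ∀ x : {x : SL2 × ℕ × ℝ // SmE E x.1 x.2.1 x.2.2 ∧ x.2.2 ≤ e0},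
      ∃ y : {x : SL2 × ℕ × ℝ // SmE E x.1 x.2.1 x.2.2 ∧ x.2.2 ≤ e0},
        y.1.2.1 = 4 * x.1.2.1 + L₁ ∧ c * x.1.2.2 ^ 2 ≤ y.1.2.2 ∧ y.1.2.2 ≤ x.1.2.2 / 4 := by
    rintro ⟨⟨a, l, e⟩, hS, he⟩
    simp only at hS he
    obtain ⟨a', e', hS', h1, h2⟩ := hstep a l e hS (he.trans b2)
    have hep := hS.pos
    have h3 : e' ≤ e / 4 := by
      have h4 : C * e ≤ 1 / 4 := (mul_le_mul_of_nonneg_left he (by linarith)).trans b1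
      calc e' ≤ C * e ^ 2 := h2
        _ = (C * e) * e := by ring
        _ ≤ 1 / 4 * e := mul_le_mul_of_nonneg_right h4 hep.le
        _ = e / 4 := by ring
    exact ⟨⟨(a', 4 * l + L₁, e'), hS', by simp only; linarith⟩, rfl, h1, h3⟩
  choose nx hnx using hnext
  let s : ℕ → {x : SL2 × ℕ × ℝ // SmE E x.1 x.2.1 x.2.2 ∧ x.2.2 ≤ e0} := fun k =>
    nx^[k] ⟨(a0, l0, e0), hS0, le_refl _⟩
  have hs : ∀ k, s (k + 1) = nx (s k) := fun k => Function.iterate_succ_apply' _ _ _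
  have hSm : ∀ k, SmE E (s k).1.1 (s k).1.2.1 (s k).1.2.2 := fun k => (s k).2.1
  have hle : ∀ k, (s k).1.2.2 ≤ e0 := fun k => (s k).2.2
  have hpos : ∀ k, 0 < (s k).1.2.2 := fun k => (hSm k).pos
  have hl : ∀ k, (s (k + 1)).1.2.1 = 4 * (s k).1.2.1 + L₁ := fun k => by
    rw [hs k]; exact (hnx (s k)).1
  have hce : ∀ k, c * (s k).1.2.2 ^ 2 ≤ (s (k + 1)).1.2.2 := fun k => by
    rw [hs k]; exact (hnx (s k)).2.1
  have hq : ∀ k, (s (k + 1)).1.2.2 ≤ (s k).1.2.2 / 4 := fun k => by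
    rw [hs k]; exact (hnx (s k)).2.2
  have he1 : ∀ k, (s k).1.2.2 ≤ 1 := fun k => (hle k).trans (b2.trans hes1)
  obtain ⟨L₀, hL₀⟩ := Net_A E hE hB ρ₁ C₂ (s 0).1.2.2 ρ₀
    (fun ρ => ⌈C₃ * ρ / (s 0).1.2.2⌉₊ * ((s 0).1.2.1 + L₂))
    (fun ρ h1 h2 => hg _ _ _ ρ (hSm 0) h1 h2) hC₂ (hpos 0) hρ₀0 hρ₀1 hρ₀2
    (le_trans (mul_le_mul_of_nonneg_left (hle 0) (by positivity)) b3)
  have hstage : ∀ k L, NetE E ρ₀ (4 * C₂ * (s k).1.2.2) L →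
      ∃ L' : ℕ, NetE E ρ₀ (4 * C₂ * (s (k + 1)).1.2.2) L' ∧
      (L' : ℝ) ≤ L + (C₃ * (4 * C₂) / c + C₃ * C₄ + 2) / (s k).1.2.2 *
        ((s (k + 1)).1.2.1 + L₂) := by
    intro k L hN
    have f1 : 4 * C₂ * (s k).1.2.2 ≤ ρ₁ :=
      le_trans (mul_le_mul_of_nonneg_left (hle k) (by positivity)) (b3.trans hρ₀1)
    have f2 : C₄ * (s k).1.2.2 ≤ ρ₁ :=
      le_trans (mul_le_mul_of_nonneg_left (hle k) (by positivity)) b4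
    have f3 : C₄ ^ 2 * (s k).1.2.2 ≤ 1 :=
      le_trans (mul_le_mul_of_nonneg_left (hle k) (by positivity)) b5
    exact Net_B E hE hB ρ₁ C₂ C₃ C₄ c L₂ hg hC₂ hC₃ hc hC₄ _ _ _ _ ρ₀ L (hSm (k + 1)) (hpos k)
      (hce k) (hq k) f1 f2 f3 (he1 k) hN
  have hD := Net_D E (4 * C₂) (C₃ * (4 * C₂) / c + C₃ * C₄ + 2) ρ₀ _ L₀ L₁ L₂
    (fun k => (s k).1.2.1) (fun k => (s k).1.2.2) hpos he1 hl hq (by positivity) rfl hL₀ hstage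
  have hK : 0 ≤ 2 * ((L₀ : ℝ) + (C₃ * (4 * C₂) / c + C₃ * C₄ + 2) *
      ((((s 1).1.2.1 : ℝ) + L₁ + L₂) * (s 0).1.2.2)) := by
    have := hpos 0
    positivity
  refine ⟨ρ₀, (L₀ + 1 + 2 * ((L₀ : ℝ) + (C₃ * (4 * C₂) / c + C₃ * C₄ + 2) *
      ((((s 1).1.2.1 : ℝ) + L₁ + L₂) * (s 0).1.2.2)) * (4 * C₂) ^ 2), hρ₀0, ?_, ?_⟩
  · have h1 : 0 ≤ 2 * ((L₀ : ℝ) + (C₃ * (4 * C₂) / c + C₃ * C₄ + 2) *
      ((((s 1).1.2.1 : ℝ) + L₁ + L₂) * (s 0).1.2.2)) * (4 * C₂) ^ 2 :=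
      mul_nonneg hK (sq_nonneg _)
    have h2 : (0 : ℝ) ≤ L₀ := Nat.cast_nonneg _
    linarith
  · intro p hp η hη hη1
    obtain ⟨L, hL1, hL2, hL3⟩ := Net_E E hE hB (4 * C₂) _ ρ₀ L₀ (fun k => (s k).1.2.2) hpos hq
      (by positivity) hK hL₀ hD η hη hη1
    obtain ⟨x, hx, hxp⟩ := hL3 p hp
    refine ⟨L, hL1, hL2, x, hx, ?_⟩
    obtain ⟨-, -, hinv, -⟩ := hB
    rw [← hinv]
    have h3 : (p⁻¹ * x)⁻¹ = x⁻¹ * p := by group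
    rw [h3]
    exact hxp

end Pool.Agent.MPEF
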