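import Pool.Agent.Lib.MP_ef3f0f_gt.N.Spec

set_option autoImplicit false

/-! MP_ef3f0f_gt, part II.3, module SLgen: `SL₂(ℝ)` is generated by a neighbourhood of `1`. -/

namespace Pool.Agent.MPEF

open scoped Pointwise

private def SLgen_u (t : ℝ) : SL2 := ⟨!![1, t; 0, 1], by simp [Matrix.det_fin_two]⟩

private def SLgen_v (t : ℝ) : SL2 := ⟨!![1, 0; t, 1], by simp [Matrix.det_fin_two]⟩

private theorem SLgen_ext (g h : SL2) (h00 : g.1 0 0 = h.1 0 0) (h01 : g.1 0 1 = h.1 0 1)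
    (h10 : g.1 1 0 = h.1 1 0) (h11 : g.1 1 1 = h.1 1 1) : g = h := by
  refine Subtype.ext ?_
  ext i j
  fin_cases i <;> fin_cases j
  · exact h00
  · exact h01
  · exact h10
  · exact h11

private theorem SLgen_u_mul (s t : ℝ) : SLgen_u s * SLgen_u t = SLgen_u (s + t) := by
  refine SLgen_ext _ _ ?_ ?_ ?_ ?_ <;>
  simp [SLgen_u, Matrix.SpecialLinearGroup.coe_mul, Matrix.mul_apply, Fin.sum_univ_two, add_comm]

private theorem SLgen_v_mul (s t : ℝ) : SLgen_v s * SLgen_v t = SLgen_v (s + t) := by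
  refine SLgen_ext _ _ ?_ ?_ ?_ ?_ <;>
  simp [SLgen_v, Matrix.SpecialLinearGroup.coe_mul, Matrix.mul_apply, Fin.sum_univ_two]

private theorem SLgen_u_pow (t : ℝ) (n : ℕ) : SLgen_u t ^ n = SLgen_u (n * t) := by
  induction n with
  | zero =>
    rw [pow_zero]
    refine SLgen_ext _ _ ?_ ?_ ?_ ?_ <;> simp [SLgen_u]
  | succ n ih =>
    rw [pow_succ, ih, SLgen_u_mul]
    push_cast
    rw [add_mul, one_mul]

private theorem SLgen_v_pow (t : ℝ) (n : ℕ) : SLgen_v t ^ n = SLgen_v (n * t) := by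
  induction n with
  | zero =>
    rw [pow_zero]
    refine SLgen_ext _ _ ?_ ?_ ?_ ?_ <;> simp [SLgen_v]
  | succ n ih =>
    rw [pow_succ, ih, SLgen_v_mul]
    push_cast
    rw [add_mul, one_mul]

private theorem SLgen_nrm_u (t : ℝ) : nrm ((SLgen_u t).1 - 1) = |t| := by
  unfold nrm SLgen_u
  simp [Real.sqrt_sq_eq_abs]

private theorem SLgen_nrm_v (t : ℝ) : nrm ((SLgen_v t).1 - 1) = |t| := by
  unfold nrm SLgen_v
  simp [Real.sqrt_sq_eq_abs]

private theorem SLgen_small (s t : ℝ) (hs : 0 < s) : ∃ n : ℕ, 0 < n ∧ |t / n| < s := by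
  obtain ⟨n, hn⟩ := exists_nat_gt (|t| / s)
  have h0 : (0 : ℝ) ≤ |t| / s := by positivity
  have hn0 : (0 : ℝ) < n := lt_of_le_of_lt h0 hn
  refine ⟨n, by exact_mod_cast hn0, ?_⟩
  rw [abs_div, abs_of_pos hn0, div_lt_iff₀ hn0]
  rw [div_lt_iff₀ hs] at hn
  linarith

private theorem SLgen_u_mem (s t : ℝ) (hs : 0 < s) : SLgen_u t ∈ Subgroup.closure (Bs s) := by
  obtain ⟨n, hn, h⟩ := SLgen_small s t hs
  have h1 : SLgen_u (t / n) ^ n = SLgen_u t := by
    rw [SLgen_u_pow, mul_div_cancel₀]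
    exact_mod_cast hn.ne'
  rw [← h1]
  refine Subgroup.pow_mem _ (Subgroup.subset_closure ?_) n
  change nrm ((SLgen_u (t / n)).1 - 1) < s
  rw [SLgen_nrm_u]
  exact h

private theorem SLgen_v_mem (s t : ℝ) (hs : 0 < s) : SLgen_v t ∈ Subgroup.closure (Bs s) := by
  obtain ⟨n, hn, h⟩ := SLgen_small s t hs
  have h1 : SLgen_v (t / n) ^ n = SLgen_v t := by
    rw [SLgen_v_pow, mul_div_cancel₀]
    exact_mod_cast hn.ne'
  rw [← h1]
  refine Subgroup.pow_mem _ (Subgroup.subset_closure ?_) n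
  change nrm ((SLgen_v (t / n)).1 - 1) < s
  rw [SLgen_nrm_v]
  exact h

private theorem SLgen_gen (s : ℝ) (hs : 0 < s) (g : SL2) (hc : g.1 1 0 ≠ 0) :
    g ∈ Subgroup.closure (Bs s) := by
  have hdet : g.1 0 0 * g.1 1 1 - g.1 0 1 * g.1 1 0 = 1 := by
    rw [← Matrix.det_fin_two]
    exact g.2
  have h1 : g = SLgen_u ((g.1 0 0 - 1) / g.1 1 0) * SLgen_v (g.1 1 0) *
      SLgen_u ((g.1 1 1 - 1) / g.1 1 0) := by
    have h01 : g.1 0 1 = (g.1 0 0 * g.1 1 1 - 1) / g.1 1 0 := by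
      rw [eq_div_iff hc]
      linarith
    refine SLgen_ext _ _ ?_ ?_ ?_ ?_
    · simp only [SLgen_u, SLgen_v, Matrix.SpecialLinearGroup.coe_mul, Matrix.mul_apply,
        Fin.sum_univ_two, Matrix.of_apply, Matrix.cons_val', Matrix.cons_val_one,
        Matrix.cons_val_zero, Matrix.cons_val_fin_one]
      field_simp
      ring
    · simp only [SLgen_u, SLgen_v, Matrix.SpecialLinearGroup.coe_mul, Matrix.mul_apply,
        Fin.sum_univ_two, Matrix.of_apply, Matrix.cons_val', Matrix.cons_val_one,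
        Matrix.cons_val_zero, Matrix.cons_val_fin_one]
      rw [h01]
      field_simp
      ring
    · simp only [SLgen_u, SLgen_v, Matrix.SpecialLinearGroup.coe_mul, Matrix.mul_apply,
        Fin.sum_univ_two, Matrix.of_apply, Matrix.cons_val', Matrix.cons_val_one,
        Matrix.cons_val_zero, Matrix.cons_val_fin_one]
      ring
    · simp only [SLgen_u, SLgen_v, Matrix.SpecialLinearGroup.coe_mul, Matrix.mul_apply,
        Fin.sum_univ_two, Matrix.of_apply, Matrix.cons_val', Matrix.cons_val_one,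
        Matrix.cons_val_zero, Matrix.cons_val_fin_one]
      field_simp
      ring
  rw [h1]
  exact Subgroup.mul_mem _ (Subgroup.mul_mem _ (SLgen_u_mem s _ hs) (SLgen_v_mem s _ hs))
    (SLgen_u_mem s _ hs)

theorem tSLgen : S_nrm → S_SLgen := by
  intro _ s hs
  rw [eq_top_iff]
  intro g _
  by_cases hc : g.1 1 0 = 0
  · have hdet : g.1 0 0 * g.1 1 1 - g.1 0 1 * g.1 1 0 = 1 := by
      rw [← Matrix.det_fin_two]
      exact g.2
    have ha : g.1 0 0 ≠ 0 := by
      intro h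
      rw [h, hc] at hdet
      norm_num at hdet
    have h1 : (SLgen_v 1 * g).1 1 0 = g.1 0 0 := by
      simp [SLgen_v, Matrix.SpecialLinearGroup.coe_mul, Matrix.mul_apply, Fin.sum_univ_two, hc]
    have h2 : SLgen_v 1 * g ∈ Subgroup.closure (Bs s) :=
      SLgen_gen s hs _ (by rw [h1]; exact ha)
    exact (Subgroup.mul_mem_cancel_left _ (SLgen_v_mem s 1 hs)).1 h2
  · exact SLgen_gen s hs g hc

end Pool.Agent.MPEF
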