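import Pool.Agent.Lib.MP_ef3f0f_gt.N.Spec

set_option autoImplicit false

/-!
# MP_ef3f0f_gt, module N/comm: commutators near 1
-/

namespace Pool.Agent.MPEF

open scoped Pointwise

private lemma comm_nrmP (h9 : ∀ A : M2, nrm A ^ 2 = A 0 0 ^ 2 + A 0 1 ^ 2 + A 1 0 ^ 2 + A 1 1 ^ 2)
    (h0 : ∀ A : M2, 0 ≤ nrm A) (A : M2) :
    nrm (A - ((A 0 0 + A 1 1) / 2) • (1 : M2)) ≤ nrm A := by
  refine le_of_sq_le_sq ?_ (h0 A)
  rw [h9, h9]
  simp only [Matrix.sub_apply, Matrix.smul_apply, smul_eq_mul, Matrix.one_apply_eq, ne_eq,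
    Fin.isValue, zero_ne_one, not_false_eq_true, Matrix.one_apply_ne, one_ne_zero]
  nlinarith [sq_nonneg (A 0 0 + A 1 1), sq_nonneg (A 0 0 - A 1 1)]

private lemma comm_adj (A : M2) : A.adjugate - 1 = (A - 1).adjugate := by
  ext i j
  fin_cases i <;> fin_cases j <;> simp [Matrix.adjugate_fin_two]

private lemma comm_brk_smul (G H : M2) (s t : ℝ) :
    brk (G - s • (1 : M2)) (H - t • (1 : M2)) = G * H - H * G := by
  simp only [brk, mul_sub, sub_mul, Algebra.mul_smul_comm, Algebra.smul_mul_assoc, mul_one, one_mul,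
    smul_sub]
  rw [smul_comm s t]
  abel

private lemma comm_tr (G H : M2) : (G * H - H * G) 0 0 + (G * H - H * G) 1 1 = 0 := by
  simp only [Matrix.sub_apply, Matrix.mul_apply, Fin.sum_univ_two]
  ring

theorem tcomm : S_nrm → S_comm := by
  rintro ⟨h0, -, hadd, hsub, hsm, hmul, hadj, -, h9, -, -, hinv, -, -⟩ g h δ hd0 hd1 hg hh
  obtain ⟨G, hG⟩ : ∃ G : M2, G = g.1 := ⟨_, rfl⟩
  obtain ⟨H, hH⟩ : ∃ H : M2, H = h.1 := ⟨_, rfl⟩
  obtain ⟨Gi, hGi⟩ : ∃ G : M2, G = (g⁻¹).1 := ⟨_, rfl⟩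
  obtain ⟨Hi, hHi⟩ : ∃ H : M2, H = (h⁻¹).1 := ⟨_, rfl⟩
  have hGG : G * Gi = 1 := by
    rw [hG, hGi]
    exact congrArg Subtype.val (mul_inv_cancel g)
  have hHH : H * Hi = 1 := by
    rw [hH, hHi]
    exact congrArg Subtype.val (mul_inv_cancel h)
  have hC : (g * h * g⁻¹ * h⁻¹).1 = G * H * Gi * Hi := by
    rw [hG, hH, hGi, hHi]
    rfl
  obtain ⟨B, hB⟩ : ∃ B : M2, B = G * H - H * G := ⟨_, rfl⟩
  have hbrk : brk (tl g) (tl h) = B := by
    rw [hB, tl, tl, comm_brk_smul, hG, hH]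
  have hB2 : B = brk (G - 1) (H - 1) := by
    have := comm_brk_smul G H 1 1
    rw [one_smul] at this
    rw [this, hB]
  have hC1 : G * H * Gi * Hi - 1 = B * (Gi * Hi) := by
    have e1 : H * G * (Gi * Hi) = 1 := by
      calc H * G * (Gi * Hi) = H * (G * Gi) * Hi := by simp only [mul_assoc]
        _ = 1 := by rw [hGG, mul_one, hHH]
    rw [hB, sub_mul, e1]
    simp only [mul_assoc]
  have hGi1 : nrm (Gi - 1) ≤ δ := by
    rw [hGi, hinv, comm_adj, hadj]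
    exact hg
  have hHi1 : nrm (Hi - 1) ≤ δ := by
    rw [hHi, hinv, comm_adj, hadj]
    exact hh
  have hG1 : nrm (G - 1) ≤ δ := by rw [hG]; exact hg
  have hH1 : nrm (H - 1) ≤ δ := by rw [hH]; exact hh
  have hGH : nrm (Gi * Hi - 1) ≤ 3 * δ := by
    have e1 : Gi * Hi - 1 = (Gi - 1) * (Hi - 1) + ((Gi - 1) + (Hi - 1)) := by
      noncomm_ring
    rw [e1]
    have a1 := hadd ((Gi - 1) * (Hi - 1)) ((Gi - 1) + (Hi - 1))
    have a2 := hadd (Gi - 1) (Hi - 1)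
    have a3 := hmul (Gi - 1) (Hi - 1)
    have a4 : nrm (Gi - 1) * nrm (Hi - 1) ≤ δ * δ := mul_le_mul hGi1 hHi1 (h0 _) hd0
    nlinarith
  have hBn : nrm B ≤ 2 * δ ^ 2 := by
    rw [hB2, brk]
    have a1 := hsub ((G - 1) * (H - 1)) ((H - 1) * (G - 1))
    have a2 := hmul (G - 1) (H - 1)
    have a3 := hmul (H - 1) (G - 1)
    have a4 : nrm (G - 1) * nrm (H - 1) ≤ δ * δ := mul_le_mul hG1 hH1 (h0 _) hd0
    have a5 : nrm (H - 1) * nrm (G - 1) ≤ δ * δ := mul_le_mul hH1 hG1 (h0 _) hd0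
    nlinarith
  have hR : nrm (B * (Gi * Hi - 1)) ≤ 6 * δ ^ 3 := by
    have a1 := hmul B (Gi * Hi - 1)
    have a2 : nrm B * nrm (Gi * Hi - 1) ≤ (2 * δ ^ 2) * (3 * δ) :=
      mul_le_mul hBn hGH (h0 _) (by positivity)
    nlinarith
  have hsplit : G * H * Gi * Hi - 1 = B + B * (Gi * Hi - 1) := by
    rw [hC1]; noncomm_ring
  constructor
  · rw [hbrk]
    obtain ⟨R, hRd⟩ : ∃ R : M2, R = B * (Gi * Hi - 1) := ⟨_, rfl⟩
    have hCR : (g * h * g⁻¹ * h⁻¹).1 = 1 + B + R := by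
      rw [hC, hRd]
      have := hsplit
      rw [sub_eq_iff_eq_add] at this
      rw [this]; abel
    have hBt : B 0 0 + B 1 1 = 0 := by rw [hB]; exact comm_tr G H
    have e1 : tl (g * h * g⁻¹ * h⁻¹) - B = R - ((R 0 0 + R 1 1) / 2) • (1 : M2) := by
      rw [tl, tr2, hCR]
      have e2 : (1 + B + R : M2) 0 0 + (1 + B + R : M2) 1 1 = 2 + (R 0 0 + R 1 1) := by
        simp only [Matrix.add_apply, Matrix.one_apply_eq]
        linarith
      rw [e2, add_div, add_smul]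
      norm_num
      abel
    rw [e1]
    have := comm_nrmP h9 h0 R
    rw [← hRd] at hR
    have h3 : 0 ≤ δ ^ 3 := by positivity
    linarith
  · rw [hC, hsplit]
    have a1 := hadd B (B * (Gi * Hi - 1))
    nlinarith [pow_nonneg hd0 2, pow_nonneg hd0 3]

end Pool.Agent.MPEF
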