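import Pool.Agent.Lib.MP_ef3f0f_gt.N.Spec

set_option autoImplicit false

/-! MP_ef3f0f_gt, part II.3, module conj3: three independent conjugates. -/

namespace Pool.Agent.MPEF

open scoped Pointwise

/-- a unipotent element -/
private def conj3_u (t : ℝ) : SL2 := ⟨!![1, t; 0, 1], by simp [Matrix.det_fin_two]⟩

/-- a unipotent element -/
private def conj3_v (t : ℝ) : SL2 := ⟨!![1, 0; t, 1], by simp [Matrix.det_fin_two]⟩

private theorem conj3_mul (A B : M2) (i j : Fin 2) : (A * B) i j = A i 0 * B 0 j + A i 1 * B 1 j := by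
  rw [Matrix.mul_apply, Fin.sum_univ_two]

private theorem conj3_cju (t : ℝ) (A : M2) (hA : A 1 1 = - A 0 0) :
    cj (conj3_u t) A 0 0 = A 0 0 + t * A 1 0 ∧
    cj (conj3_u t) A 0 1 = A 0 1 - 2 * t * A 0 0 - t ^ 2 * A 1 0 ∧
    cj (conj3_u t) A 1 0 = A 1 0 := by
  have h : ((conj3_u t)⁻¹).1 = !![1, -t; 0, 1] := by
    rw [Matrix.SpecialLinearGroup.coe_inv]
    unfold conj3_u
    simp [Matrix.adjugate_fin_two_of]
  unfold cj
  rw [h]
  unfold conj3_u
  simp only [conj3_mul, Matrix.of_apply, Matrix.cons_val', Matrix.cons_val_one, Matrix.cons_val_zero,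
    Matrix.cons_val_fin_one, hA]
  refine ⟨by ring, by ring, by ring⟩

private theorem conj3_cjv (t : ℝ) (A : M2) (hA : A 1 1 = - A 0 0) :
    cj (conj3_v t) A 0 0 = A 0 0 - t * A 0 1 ∧
    cj (conj3_v t) A 0 1 = A 0 1 ∧
    cj (conj3_v t) A 1 0 = A 1 0 + 2 * t * A 0 0 - t ^ 2 * A 0 1 := by
  have h : ((conj3_v t)⁻¹).1 = !![1, 0; -t, 1] := by
    rw [Matrix.SpecialLinearGroup.coe_inv]
    unfold conj3_v
    simp [Matrix.adjugate_fin_two_of]
  unfold cj
  rw [h]
  unfold conj3_v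
  simp only [conj3_mul, Matrix.of_apply, Matrix.cons_val', Matrix.cons_val_one, Matrix.cons_val_zero,
    Matrix.cons_val_fin_one, hA]
  refine ⟨by ring, by ring, by ring⟩

private theorem conj3_ex (A : M2) (hA : A 1 1 = - A 0 0) (h0 : A ≠ 0) :
    ∃ g g' : SL2, tdet A (cj g A) (cj g' A) ≠ 0 := by
  by_cases hc : A 1 0 = 0
  · by_cases hb : A 0 1 = 0
    · have ha : A 0 0 ≠ 0 := by
        intro ha
        apply h0
        ext i j
        fin_cases i <;> fin_cases j
        · exact ha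
        · exact hb
        · exact hc
        · show A 1 1 = 0
          rw [hA, ha, neg_zero]
      refine ⟨conj3_u 1, conj3_v 1, ?_⟩
      obtain ⟨e1, e2, e3⟩ := conj3_cju 1 A hA
      obtain ⟨f1, f2, f3⟩ := conj3_cjv 1 A hA
      unfold tdet
      rw [e1, e2, e3, f1, f2, f3, hb, hc]
      have : -4 * A 0 0 ^ 3 ≠ 0 := mul_ne_zero (by norm_num) (pow_ne_zero _ ha)
      intro h
      apply this
      rw [← h]
      ring
    · refine ⟨conj3_v 1, conj3_v 2, ?_⟩
      obtain ⟨e1, e2, e3⟩ := conj3_cjv 1 A hA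
      obtain ⟨f1, f2, f3⟩ := conj3_cjv 2 A hA
      unfold tdet
      rw [e1, e2, e3, f1, f2, f3]
      have : -2 * A 0 1 ^ 3 ≠ 0 := mul_ne_zero (by norm_num) (pow_ne_zero _ hb)
      intro h
      apply this
      rw [← h]
      ring
  · refine ⟨conj3_u 1, conj3_u 2, ?_⟩
    obtain ⟨e1, e2, e3⟩ := conj3_cju 1 A hA
    obtain ⟨f1, f2, f3⟩ := conj3_cju 2 A hA
    unfold tdet
    rw [e1, e2, e3, f1, f2, f3]
    have : -2 * A 1 0 ^ 3 ≠ 0 := mul_ne_zero (by norm_num) (pow_ne_zero _ hc)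
    intro h
    apply this
    rw [← h]
    ring

private theorem conj3_cont_tdet : Continuous fun p : M2 × M2 × M2 => tdet p.1 p.2.1 p.2.2 := by
  unfold tdet
  fun_prop

private theorem conj3_cont_cj : Continuous fun p : SL2 × M2 => cj p.1 p.2 := by
  unfold cj
  have h : (fun p : SL2 × M2 => p.1.1 * p.2 * (p.1⁻¹).1) =
      fun p : SL2 × M2 => p.1.1 * p.2 * p.1.1.adjugate := by
    funext p
    rw [Matrix.SpecialLinearGroup.coe_inv]
  rw [h]
  have h1 : Continuous fun p : SL2 × M2 => p.1.1 := continuous_subtype_val.comp continuous_fst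
  exact (h1.matrix_mul continuous_snd).matrix_mul h1.matrix_adjugate

private theorem conj3_cont : Continuous fun p : (SL2 × SL2) × M2 =>
    |tdet p.2 (cj p.1.1 p.2) (cj p.1.2 p.2)| := by
  have h1 : Continuous fun p : (SL2 × SL2) × M2 => cj p.1.1 p.2 :=
    conj3_cont_cj.comp ((continuous_fst.comp continuous_fst).prodMk continuous_snd)
  have h2 : Continuous fun p : (SL2 × SL2) × M2 => cj p.1.2 p.2 :=
    conj3_cont_cj.comp ((continuous_snd.comp continuous_fst).prodMk continuous_snd)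
  exact (conj3_cont_tdet.comp (continuous_snd.prodMk (h1.prodMk h2))).abs

private theorem conj3_cj_smul (g : SL2) (r : ℝ) (A : M2) : cj g (r • A) = r • cj g A := by
  unfold cj
  rw [Matrix.mul_smul, Matrix.smul_mul]

private theorem conj3_tdet_smul (r : ℝ) (A B C : M2) :
    tdet (r • A) (r • B) (r • C) = r ^ 3 * tdet A B C := by
  unfold tdet
  simp only [Matrix.smul_apply, smul_eq_mul]
  ring

private theorem conj3_brk_bound (hn : S_nrm) (A B C : M2) (hA : A 1 1 = - A 0 0)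
    (hB : B 1 1 = - B 0 0) : |tdet A B C| ≤ 2 * nrm (brk A B) * nrm C := by
  obtain ⟨h0, h00, hadd, hsub, hsmul, hmul, hadj, hent, -⟩ := hn
  have e00 : brk A B 0 0 = A 0 1 * B 1 0 - B 0 1 * A 1 0 := by
    unfold brk
    rw [Matrix.sub_apply, conj3_mul, conj3_mul]; ring
  have e01 : brk A B 0 1 = 2 * (A 0 0 * B 0 1 - A 0 1 * B 0 0) := by
    unfold brk
    rw [Matrix.sub_apply, conj3_mul, conj3_mul, hA, hB]; ring
  have e10 : brk A B 1 0 = 2 * (A 1 0 * B 0 0 - A 0 0 * B 1 0) := by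
    unfold brk
    rw [Matrix.sub_apply, conj3_mul, conj3_mul, hA, hB]; ring
  have e : tdet A B C = C 1 0 * (brk A B 0 1 / 2) + C 0 1 * (brk A B 1 0 / 2) +
      C 0 0 * brk A B 0 0 := by
    rw [e00, e01, e10]
    unfold tdet
    ring
  have hb : ∀ (i j i' j' : Fin 2), |C i j * brk A B i' j'| ≤ nrm (brk A B) * nrm C := by
    intro i j i' j'
    rw [abs_mul, mul_comm]
    exact mul_le_mul (hent _ _ _) (hent _ _ _) (abs_nonneg _) (h0 _)
  have h1 := abs_le.1 (hb 1 0 0 1)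
  have h2 := abs_le.1 (hb 0 1 1 0)
  have h3 := abs_le.1 (hb 0 0 0 0)
  rw [e, abs_le]
  constructor
  · linarith [h1.1, h2.1, h3.1]
  · linarith [h1.2, h2.2, h3.2]

private theorem conj3_tr (g : SL2) (A : M2) (hA : A 1 1 = - A 0 0) :
    cj g A 1 1 = - cj g A 0 0 := by
  unfold cj
  rw [Matrix.SpecialLinearGroup.coe_inv]
  have hd : g.1.det = 1 := g.2
  rw [Matrix.det_fin_two] at hd
  have e1 : g.1.adjugate = !![g.1 1 1, - g.1 0 1; - g.1 1 0, g.1 0 0] := Matrix.adjugate_fin_two g.1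
  rw [e1]
  simp only [conj3_mul, Matrix.of_apply, Matrix.cons_val', Matrix.cons_val_one, Matrix.cons_val_zero,
    Matrix.cons_val_fin_one, hA]
  ring

private theorem conj3_sphere (hn : S_nrm) : IsCompact {A : M2 | nrm A = 1 ∧ A 1 1 = - A 0 0} := by
  obtain ⟨h0, h00, hadd, hsub, hsmul, hmul, hadj, hent, hsq, hcont, -⟩ := hn
  have hcl : IsClosed {A : M2 | nrm A = 1 ∧ A 1 1 = - A 0 0} := by
    refine IsClosed.inter (isClosed_eq hcont continuous_const) (isClosed_eq ?_ ?_)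
    · fun_prop
    · fun_prop
  have hK : IsCompact (Set.pi Set.univ fun _ : Fin 2 => Set.pi Set.univ fun _ : Fin 2 =>
      Set.Icc (-1 : ℝ) 1) :=
    isCompact_univ_pi fun i => isCompact_univ_pi fun j => isCompact_Icc
  refine IsCompact.of_isClosed_subset hK hcl ?_
  intro A hA i _ j _
  have h1 := (hent A i j).trans hA.1.le
  rw [abs_le] at h1
  exact h1

/-- local statement -/
private def conj3_P (E : ℕ → Set SL2) (s : Set M2) : Prop :=
  ∃ (c : ℝ) (L₀ : ℕ) (K : ℝ), 0 < c ∧ 2 ≤ K ∧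
    ∀ A ∈ s, ∃ g ∈ E L₀, ∃ g' ∈ E L₀, nrm g.1 ≤ K ∧ nrm g'.1 ≤ K ∧
      c ≤ |tdet A (cj g A) (cj g' A)|

private theorem conj3_sphere_P (hn : S_nrm) (E : ℕ → Set SL2) (hE : LenS E) :
    conj3_P E {A : M2 | nrm A = 1 ∧ A 1 1 = - A 0 0} := by
  refine IsCompact.induction_on (conj3_sphere hn) ?_ ?_ ?_ ?_
  · exact ⟨1, 0, 2, one_pos, le_refl _, fun A hA => absurd hA (Set.notMem_empty _)⟩
  · rintro s t hst ⟨c, L, K, hc, hK, h⟩
    exact ⟨c, L, K, hc, hK, fun A hA => h A (hst hA)⟩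
  · rintro s t ⟨c, L, K, hc, hK, h⟩ ⟨c', L', K', hc', hK', h'⟩
    refine ⟨min c c', max L L', max K K', lt_min hc hc', hK.trans (le_max_left _ _), ?_⟩
    rintro A (hA | hA)
    · obtain ⟨g, hg, g', hg', h1, h2, h3⟩ := h A hA
      exact ⟨g, hE.mono _ _ (le_max_left _ _) hg, g', hE.mono _ _ (le_max_left _ _) hg',
        h1.trans (le_max_left _ _), h2.trans (le_max_left _ _), (min_le_left _ _).trans h3⟩
    · obtain ⟨g, hg, g', hg', h1, h2, h3⟩ := h' A hA
      exact ⟨g, hE.mono _ _ (le_max_right _ _) hg, g', hE.mono _ _ (le_max_right _ _) hg',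
        h1.trans (le_max_right _ _), h2.trans (le_max_right _ _), (min_le_right _ _).trans h3⟩
  · intro A hA
    have hA0 : A ≠ 0 := by
      intro h
      have h1 : nrm A = 1 := hA.1
      have h2 := (hn.2.1 A).2 h
      rw [h2] at h1
      exact zero_ne_one h1
    obtain ⟨g₀, g₀', h0⟩ := conj3_ex A hA.2 hA0
    have hcg : Continuous fun p : SL2 × SL2 => |tdet A (cj p.1 A) (cj p.2 A)| := by
      have h1 : Continuous fun p : SL2 × SL2 => ((p, A) : (SL2 × SL2) × M2) :=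
        continuous_id.prodMk continuous_const
      exact conj3_cont.comp h1
    have hopen : IsOpen {p : SL2 × SL2 | 0 < |tdet A (cj p.1 A) (cj p.2 A)|} :=
      isOpen_lt continuous_const hcg
    obtain ⟨⟨g, g'⟩, hp, hd⟩ := (hE.dense.prod hE.dense).inter_open_nonempty _ hopen
      ⟨(g₀, g₀'), abs_pos.2 h0⟩
    obtain ⟨L, hL⟩ := Set.mem_iUnion.1 hd.1
    obtain ⟨L', hL'⟩ := Set.mem_iUnion.1 hd.2
    have hp' : 0 < |tdet A (cj g A) (cj g' A)| := hp
    have hcB : Continuous fun B : M2 => |tdet B (cj g B) (cj g' B)| := by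
      have h1 : Continuous fun B : M2 => (((g, g'), B) : (SL2 × SL2) × M2) :=
        continuous_const.prodMk continuous_id
      exact conj3_cont.comp h1
    have hopen2 : IsOpen {B : M2 | |tdet A (cj g A) (cj g' A)| / 2 <
        |tdet B (cj g B) (cj g' B)|} :=
      isOpen_lt continuous_const hcB
    have hmem : A ∈ {B : M2 | |tdet A (cj g A) (cj g' A)| / 2 < |tdet B (cj g B) (cj g' B)|} := by
      show |tdet A (cj g A) (cj g' A)| / 2 < |tdet A (cj g A) (cj g' A)|
      linarith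
    have hP : conj3_P E {B : M2 | |tdet A (cj g A) (cj g' A)| / 2 <
        |tdet B (cj g B) (cj g' B)|} := by
      refine ⟨|tdet A (cj g A) (cj g' A)| / 2, max L L', max 2 (max (nrm g.1) (nrm g'.1)), half_pos hp',
        le_max_left _ _, ?_⟩
      intro B hB
      exact ⟨g, hE.mono _ _ (le_max_left _ _) hL, g', hE.mono _ _ (le_max_right _ _) hL',
        (le_max_left _ _).trans (le_max_right _ _), (le_max_right _ _).trans (le_max_right _ _),
        le_of_lt hB⟩
    exact ⟨_, mem_nhdsWithin_of_mem_nhds (hopen2.mem_nhds hmem), hP⟩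

theorem tconj3 : S_nrm → S_conj3 := by
  intro hn E hE
  obtain ⟨c, L, K, hc, hK, h⟩ := conj3_sphere_P hn E hE
  have hn' := hn
  obtain ⟨h0, h00, hadd, hsub, hsmul, hmul, hadj, hent, hsq, hcont, hone, hinv, hninv, hge⟩ := hn'
  have hK0 : 0 < K := by linarith
  have hK2 : 1 ≤ 2 * K ^ 2 := by nlinarith
  have hcc : c / (2 * K ^ 2) ≤ c := div_le_self hc.le hK2
  refine ⟨c / (2 * K ^ 2), L, K, by positivity, by linarith, ?_⟩
  intro A hA
  by_cases hA0 : A = 0
  · have hs2 : Real.sqrt 2 ≤ 2 := by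
      rw [Real.sqrt_le_left (by norm_num)]; norm_num
    have hA1 : nrm A = 0 := (h00 A).2 hA0
    have h1 : (1 : SL2) ∈ E L := hE.mono 0 L (Nat.zero_le _) hE.one
    have h2 : nrm (1 : SL2).1 ≤ K := by
      rw [Matrix.SpecialLinearGroup.coe_one, hone]
      linarith
    refine ⟨1, h1, 1, h1, h2, h2, ?_, ?_⟩
    · rw [hA1]
      have : c / (2 * K ^ 2) * (0 : ℝ) ^ 3 = 0 := by ring
      rw [this]
      exact abs_nonneg _
    · rw [hA1]
      have : c / (2 * K ^ 2) * (0 : ℝ) ^ 2 = 0 := by ring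
      rw [this]
      exact h0 _
  · have hr : 0 < nrm A := lt_of_le_of_ne (h0 A) (fun h => hA0 ((h00 A).1 h.symm))
    obtain ⟨g, hg, g', hg', h1, h2, h3⟩ := h ((nrm A)⁻¹ • A) ⟨by
      rw [hsmul, abs_of_pos (inv_pos.2 hr), inv_mul_cancel₀ hr.ne'], by
      rw [Matrix.smul_apply, Matrix.smul_apply, hA, smul_neg]⟩
    have h4 : c * nrm A ^ 3 ≤ |tdet A (cj g A) (cj g' A)| := by
      rw [conj3_cj_smul, conj3_cj_smul, conj3_tdet_smul, abs_mul, abs_of_pos (by positivity),
        inv_pow, inv_mul_eq_div, le_div_iff₀ (by positivity)] at h3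
      exact h3
    have h5 := conj3_brk_bound hn A (cj g A) (cj g' A) hA (conj3_tr g A hA)
    have h6 : nrm (cj g' A) ≤ K ^ 2 * nrm A := by
      unfold cj
      have e1 := hmul (g'.1 * A) (g'⁻¹).1
      have e2 := hmul g'.1 A
      rw [hninv] at e1
      calc nrm (g'.1 * A * (g'⁻¹).1) ≤ nrm (g'.1 * A) * nrm g'.1 := e1
        _ ≤ (nrm g'.1 * nrm A) * nrm g'.1 := mul_le_mul_of_nonneg_right e2 (h0 _)
        _ ≤ (K * nrm A) * K := by
          apply mul_le_mul _ h2 (h0 _) (by positivity)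
          exact mul_le_mul_of_nonneg_right h2 (h0 _)
        _ = K ^ 2 * nrm A := by ring
    refine ⟨g, hg, g', hg', h1, h2, ?_, ?_⟩
    · exact (mul_le_mul_of_nonneg_right hcc (by positivity)).trans h4
    · have h7 : c * nrm A ^ 3 ≤ 2 * nrm (brk A (cj g A)) * (K ^ 2 * nrm A) :=
        h4.trans (h5.trans (mul_le_mul_of_nonneg_left h6 (mul_nonneg (by norm_num) (h0 _))))
      rw [div_mul_eq_mul_div, div_le_iff₀ (by positivity)]
      have h8 : (c * nrm A ^ 2) * nrm A ≤ (nrm (brk A (cj g A)) * (2 * K ^ 2)) * nrm A := by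
        calc (c * nrm A ^ 2) * nrm A = c * nrm A ^ 3 := by ring
          _ ≤ 2 * nrm (brk A (cj g A)) * (K ^ 2 * nrm A) := h7
          _ = (nrm (brk A (cj g A)) * (2 * K ^ 2)) * nrm A := by ring
      exact le_of_mul_le_mul_right h8 hr

end Pool.Agent.MPEF
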