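import Pool.Agent.Lib.MP_ef3f0f_gt.N.Spec

set_option autoImplicit false

namespace Pool.Agent.MPEF

open scoped Pointwise

private theorem greedy_cramer (Y A B C : M2) (hY : Y 1 1 = - Y 0 0) (hA : A 1 1 = - A 0 0)
    (hB : B 1 1 = - B 0 0) (hC : C 1 1 = - C 0 0) :
    tdet A B C • Y = tdet Y B C • A + tdet A Y C • B + tdet A B Y • C := by
  ext i j
  simp only [Matrix.add_apply, Matrix.smul_apply, smul_eq_mul]
  unfold tdet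
  fin_cases i <;> fin_cases j
  · simp only [Fin.mk_zero, Fin.isValue]
    ring
  · simp only [Fin.mk_one, Fin.isValue, Fin.zero_eta]
    ring
  · simp only [Fin.mk_one, Fin.isValue, Fin.zero_eta]
    ring
  · simp only [Fin.mk_one, Fin.isValue]
    rw [hY, hA, hB, hC]
    ring

private theorem greedy_tri (x y z a b c : ℝ) (hx : |x| ≤ a) (hy : |y| ≤ b) (hz : |z| ≤ c) :
    |x * (y * z)| ≤ a * b * c := by
  rw [abs_mul, abs_mul]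
  have ha : 0 ≤ a := (abs_nonneg x).trans hx
  have hb : 0 ≤ b := (abs_nonneg y).trans hy
  calc |x| * (|y| * |z|) ≤ a * (b * c) :=
        mul_le_mul hx (mul_le_mul hy hz (abs_nonneg z) hb) (by positivity) ha
    _ = a * b * c := by ring

private theorem greedy_tdet (hn : ∀ (A : M2) (i j : Fin 2), |A i j| ≤ nrm A) (A B C : M2) :
    |tdet A B C| ≤ 6 * (nrm A * nrm B * nrm C) := by
  have e : tdet A B C = A 0 0 * (B 0 1 * C 1 0) - A 0 0 * (B 1 0 * C 0 1) -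
      A 0 1 * (B 0 0 * C 1 0) + A 0 1 * (B 1 0 * C 0 0) + A 1 0 * (B 0 0 * C 0 1) -
      A 1 0 * (B 0 1 * C 0 0) := by
    unfold tdet
    ring
  rw [e]
  have h1 := abs_le.1 (greedy_tri _ _ _ _ _ _ (hn A 0 0) (hn B 0 1) (hn C 1 0))
  have h2 := abs_le.1 (greedy_tri _ _ _ _ _ _ (hn A 0 0) (hn B 1 0) (hn C 0 1))
  have h3 := abs_le.1 (greedy_tri _ _ _ _ _ _ (hn A 0 1) (hn B 0 0) (hn C 1 0))
  have h4 := abs_le.1 (greedy_tri _ _ _ _ _ _ (hn A 0 1) (hn B 1 0) (hn C 0 0))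
  have h5 := abs_le.1 (greedy_tri _ _ _ _ _ _ (hn A 1 0) (hn B 0 0) (hn C 0 1))
  have h6 := abs_le.1 (greedy_tri _ _ _ _ _ _ (hn A 1 0) (hn B 0 1) (hn C 0 0))
  rw [abs_le]
  constructor <;> linarith

private theorem greedy_pow (E : ℕ → Set SL2) (hE : LenS E) (g : SL2) (m : ℕ) (hg : g ∈ E m)
    (n : ℕ) : g ^ n ∈ E (n * m) := by
  induction n with
  | zero =>
    rw [pow_zero, Nat.zero_mul]
    exact hE.one
  | succ n ih =>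
    rw [pow_succ, Nat.succ_mul]
    exact hE.mul _ _ _ _ ih hg

private theorem greedy_zpow (E : ℕ → Set SL2) (hE : LenS E) (g : SL2) (m : ℕ) (hg : g ∈ E m)
    (n : ℤ) : g ^ n ∈ E (n.natAbs * m) := by
  rcases Int.natAbs_eq n with h | h
  · have h1 := greedy_pow E hE g m hg n.natAbs
    rw [← zpow_natCast, ← h] at h1
    exact h1
  · have h1 := hE.inv _ _ (greedy_pow E hE g m hg n.natAbs)
    rw [← zpow_natCast, ← zpow_neg, ← h] at h1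
    exact h1

/-- one factor -/
private theorem greedy_factor (hn : S_nrm) (ht : S_tlnr) (hp : S_pow) (K C' : ℝ) (hK : 1 ≤ K)
    (hC' : 1 ≤ C') (e ρ : ℝ) (he : 0 < e) (heρ : e ≤ ρ) (hρ1 : ρ ≤ 1)
    (hρ2 : 2 * K ^ 2 * C' * ρ ≤ 1) (hρ3 : 2 * K ^ 2 * ρ ≤ 1 / 10) (b : SL2)
    (hb1 : nrm (b.1 - 1) ≤ 2 * K ^ 2 * e) (hb2 : nrm (tl b) ≤ K ^ 2 * e) (n : ℤ)
    (hnn : |(n : ℝ)| ≤ C' * ρ / e) :
    nrm ((b ^ n).1 - 1 - (n : ℝ) • tl b) ≤ (40 * K ^ 4 * C' ^ 2 + 2 * K ^ 4 * C') * ρ ^ 2 ∧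
    nrm ((b ^ n).1 - 1) ≤ (K ^ 2 * C' + (40 * K ^ 4 * C' ^ 2 + 2 * K ^ 4 * C')) * ρ := by
  obtain ⟨n0, nz, nadd, nsub, nsmul, nmul, nadj, nent, nsq, ncont, none, ninv, ninv', nge⟩ := hn
  have hρ0 : 0 < ρ := lt_of_lt_of_le he heρ
  have hKe : 2 * K ^ 2 * e ≤ 2 * K ^ 2 * ρ := mul_le_mul_of_nonneg_left heρ (by positivity)
  have hδ : 2 * K ^ 2 * e ≤ 1 / 10 := hKe.trans hρ3
  have hnδ : |(n : ℝ)| * (2 * K ^ 2 * e) ≤ 2 * K ^ 2 * C' * ρ := by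
    calc |(n : ℝ)| * (2 * K ^ 2 * e) ≤ (C' * ρ / e) * (2 * K ^ 2 * e) :=
          mul_le_mul_of_nonneg_right hnn (by positivity)
      _ = 2 * K ^ 2 * C' * ρ := by field_simp
  have h1 := hp b (2 * K ^ 2 * e) n hb1 hδ (hnδ.trans hρ2)
  have h2 := (ht b (hb1.trans hδ)).1
  have hnδ0 : 0 ≤ |(n : ℝ)| * (2 * K ^ 2 * e) := by positivity
  have h1' : nrm ((b ^ n).1 - 1 - (n : ℝ) • (b.1 - 1)) ≤ 40 * K ^ 4 * C' ^ 2 * ρ ^ 2 := by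
    refine h1.trans ?_
    calc 10 * (|(n : ℝ)| * (2 * K ^ 2 * e)) ^ 2 ≤ 10 * (2 * K ^ 2 * C' * ρ) ^ 2 := by
          apply mul_le_mul_of_nonneg_left _ (by norm_num)
          exact pow_le_pow_left₀ hnδ0 hnδ 2
      _ = 40 * K ^ 4 * C' ^ 2 * ρ ^ 2 := by ring
  have h2' : nrm ((n : ℝ) • (b.1 - 1 - tl b)) ≤ 2 * K ^ 4 * C' * ρ ^ 2 := by
    rw [nsmul]
    have h3 : nrm (b.1 - 1 - tl b) ≤ 2 * (K ^ 2 * e) ^ 2 := by
      refine h2.trans ?_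
      apply mul_le_mul_of_nonneg_left _ (by norm_num)
      exact pow_le_pow_left₀ (n0 _) hb2 2
    calc |(n : ℝ)| * nrm (b.1 - 1 - tl b) ≤ (C' * ρ / e) * (2 * (K ^ 2 * e) ^ 2) :=
          mul_le_mul hnn h3 (n0 _) (by positivity)
      _ = (2 * K ^ 4 * C' * ρ) * e := by field_simp
      _ ≤ (2 * K ^ 4 * C' * ρ) * ρ := mul_le_mul_of_nonneg_left heρ (by positivity)
      _ = 2 * K ^ 4 * C' * ρ ^ 2 := by ring
  have h3 : nrm ((b ^ n).1 - 1 - (n : ℝ) • tl b) ≤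
      (40 * K ^ 4 * C' ^ 2 + 2 * K ^ 4 * C') * ρ ^ 2 := by
    have e1 : (b ^ n).1 - 1 - (n : ℝ) • tl b =
        ((b ^ n).1 - 1 - (n : ℝ) • (b.1 - 1)) + (n : ℝ) • (b.1 - 1 - tl b) := by
      rw [smul_sub (n : ℝ) (b.1 - 1) (tl b)]
      abel
    rw [e1]
    refine (nadd _ _).trans ?_
    rw [add_mul]
    exact add_le_add h1' h2'
  refine ⟨h3, ?_⟩
  have h4 : nrm ((n : ℝ) • tl b) ≤ K ^ 2 * C' * ρ := by
    rw [nsmul]
    calc |(n : ℝ)| * nrm (tl b) ≤ (C' * ρ / e) * (K ^ 2 * e) :=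
          mul_le_mul hnn hb2 (n0 _) (by positivity)
      _ = K ^ 2 * C' * ρ := by field_simp
  have e2 : (b ^ n).1 - 1 = ((b ^ n).1 - 1 - (n : ℝ) • tl b) + (n : ℝ) • tl b := by abel
  rw [e2]
  refine (nadd _ _).trans ?_
  have h5 : (40 * K ^ 4 * C' ^ 2 + 2 * K ^ 4 * C') * ρ ^ 2 ≤
      (40 * K ^ 4 * C' ^ 2 + 2 * K ^ 4 * C') * ρ := by
    apply mul_le_mul_of_nonneg_left _ (by positivity)
    nlinarith
  linarith

/-- the product of three matrices near one -/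
private theorem greedy_prod (hn : S_nrm) (W₁ W₂ W₃ X₁ X₂ X₃ : M2) (D F ρ : ℝ)
    (hF : 0 ≤ F) (hρ : 0 < ρ) (hρ1 : ρ ≤ 1) (h1 : nrm (W₁ - X₁) ≤ D * ρ ^ 2)
    (h2 : nrm (W₂ - X₂) ≤ D * ρ ^ 2) (h3 : nrm (W₃ - X₃) ≤ D * ρ ^ 2) (g1 : nrm W₁ ≤ F * ρ)
    (g2 : nrm W₂ ≤ F * ρ) (g3 : nrm W₃ ≤ F * ρ) :
    nrm ((1 + W₁) * (1 + W₂) * (1 + W₃) - 1 - (X₁ + X₂ + X₃)) ≤
      (3 * D + 3 * F ^ 2 + F ^ 3) * ρ ^ 2 ∧
    nrm ((1 + W₁) * (1 + W₂) * (1 + W₃)) ≤ (2 + F) ^ 3 := by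
  obtain ⟨n0, nz, nadd, nsub, nsmul, nmul, nadj, nent, nsq, ncont, none, ninv, ninv', nge⟩ := hn
  have hFρ : 0 ≤ F * ρ := by positivity
  constructor
  · have e : (1 + W₁) * (1 + W₂) * (1 + W₃) - 1 - (X₁ + X₂ + X₃) =
        (W₁ - X₁) + (W₂ - X₂) + (W₃ - X₃) + (W₁ * W₂ + W₁ * W₃ + W₂ * W₃ + W₁ * W₂ * W₃) := by
      noncomm_ring
    rw [e]
    have m12 : nrm (W₁ * W₂) ≤ F ^ 2 * ρ ^ 2 := by
      refine (nmul _ _).trans ?_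
      calc nrm W₁ * nrm W₂ ≤ (F * ρ) * (F * ρ) := mul_le_mul g1 g2 (n0 _) hFρ
        _ = F ^ 2 * ρ ^ 2 := by ring
    have m13 : nrm (W₁ * W₃) ≤ F ^ 2 * ρ ^ 2 := by
      refine (nmul _ _).trans ?_
      calc nrm W₁ * nrm W₃ ≤ (F * ρ) * (F * ρ) := mul_le_mul g1 g3 (n0 _) hFρ
        _ = F ^ 2 * ρ ^ 2 := by ring
    have m23 : nrm (W₂ * W₃) ≤ F ^ 2 * ρ ^ 2 := by
      refine (nmul _ _).trans ?_
      calc nrm W₂ * nrm W₃ ≤ (F * ρ) * (F * ρ) := mul_le_mul g2 g3 (n0 _) hFρ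
        _ = F ^ 2 * ρ ^ 2 := by ring
    have m123 : nrm (W₁ * W₂ * W₃) ≤ F ^ 3 * ρ ^ 2 := by
      refine (nmul _ _).trans ?_
      calc nrm (W₁ * W₂) * nrm W₃ ≤ (F ^ 2 * ρ ^ 2) * (F * ρ) :=
            mul_le_mul m12 g3 (n0 _) (by positivity)
        _ = (F ^ 3 * ρ ^ 2) * ρ := by ring
        _ ≤ (F ^ 3 * ρ ^ 2) * 1 := mul_le_mul_of_nonneg_left hρ1 (by positivity)
        _ = F ^ 3 * ρ ^ 2 := mul_one _
    have a1 := nadd ((W₁ - X₁) + (W₂ - X₂) + (W₃ - X₃))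
      (W₁ * W₂ + W₁ * W₃ + W₂ * W₃ + W₁ * W₂ * W₃)
    have a2 := nadd ((W₁ - X₁) + (W₂ - X₂)) (W₃ - X₃)
    have a3 := nadd (W₁ - X₁) (W₂ - X₂)
    have a4 := nadd (W₁ * W₂ + W₁ * W₃ + W₂ * W₃) (W₁ * W₂ * W₃)
    have a5 := nadd (W₁ * W₂ + W₁ * W₃) (W₂ * W₃)
    have a6 := nadd (W₁ * W₂) (W₁ * W₃)
    have e2 : (3 * D + 3 * F ^ 2 + F ^ 3) * ρ ^ 2 = 3 * (D * ρ ^ 2) + 3 * (F ^ 2 * ρ ^ 2) +
        F ^ 3 * ρ ^ 2 := by ring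
    rw [e2]
    linarith
  · have hs : Real.sqrt 2 ≤ 2 := by
      rw [Real.sqrt_le_left (by norm_num)]
      norm_num
    have hFρ' : F * ρ ≤ F := by nlinarith
    have hW : ∀ W : M2, nrm W ≤ F * ρ → nrm (1 + W) ≤ 2 + F := by
      intro W hW
      have := nadd 1 W
      rw [none] at this
      linarith
    have h0 : 0 ≤ 2 + F := by linarith
    refine (nmul _ _).trans ?_
    have h12 : nrm ((1 + W₁) * (1 + W₂)) ≤ (2 + F) * (2 + F) :=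
      (nmul _ _).trans (mul_le_mul (hW _ g1) (hW _ g2) (n0 _) h0)
    calc nrm ((1 + W₁) * (1 + W₂)) * nrm (1 + W₃) ≤ ((2 + F) * (2 + F)) * (2 + F) :=
          mul_le_mul h12 (hW _ g3) (n0 _) (by positivity)
      _ = (2 + F) ^ 3 := by ring

theorem tgreedy : S_nrm → S_Bs → S_conj3 → S_tlnr → S_pow → S_greedy := by
  intro hn hBs hc3 ht hp E hE
  have hn' := hn
  obtain ⟨n0, nz, nadd, nsub, nsmul, nmul, nadj, nent, nsq, ncont, none, ninv, ninv', nge⟩ := hn'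
  obtain ⟨_, _, _, _, _, _, _, _, _, bconj, bq⟩ := hBs
  obtain ⟨c, L₀, K, hc, hK, hc3⟩ := hc3 E hE
  obtain ⟨C', hC'⟩ : ∃ r : ℝ, r = 6 * K ^ 4 / c + 1 := ⟨_, rfl⟩
  have hC'1 : 1 ≤ C' := by
    have : 0 ≤ 6 * K ^ 4 / c := by positivity
    linarith
  have hC'0 : 0 < C' := by linarith
  obtain ⟨D, hD⟩ : ∃ r : ℝ, r = 40 * K ^ 4 * C' ^ 2 + 2 * K ^ 4 * C' := ⟨_, rfl⟩
  have hD0 : 0 ≤ D := by rw [hD]; positivity
  obtain ⟨F, hF⟩ : ∃ r : ℝ, r = K ^ 2 * C' + D := ⟨_, rfl⟩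
  have hF0 : 0 ≤ F := by rw [hF]; positivity
  obtain ⟨ρ₁, hρ₁⟩ : ∃ r : ℝ, r = 1 / (20 * K ^ 2 * C') := ⟨_, rfl⟩
  have hρ₁0 : 0 < ρ₁ := by rw [hρ₁]; positivity
  have hK2 : 1 ≤ K ^ 2 := one_le_pow₀ hK
  have hKC : 1 ≤ K ^ 2 * C' := by nlinarith
  have hρ₁1 : ρ₁ ≤ 1 / 20 := by
    rw [hρ₁]
    apply one_div_le_one_div_of_le (by norm_num)
    nlinarith
  obtain ⟨C₂, hC₂⟩ : ∃ r : ℝ, r = (2 + F) ^ 3 * (2 + 3 * D + 3 * F ^ 2 + F ^ 3 + 2 * K ^ 2) + 1 := ⟨_, rfl⟩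
  have hC₂1 : 1 ≤ C₂ := by
    have : 0 ≤ (2 + F) ^ 3 * (2 + 3 * D + 3 * F ^ 2 + F ^ 3 + 2 * K ^ 2) := by positivity
    linarith
  refine ⟨ρ₁, C₂, 3 * C', 2 * L₀, hρ₁0, by linarith, hC₂1, by linarith, ?_⟩
  intro a l e ρ ha heρ hρ q hq
  have he := ha.pos
  have hρ0 : 0 < ρ := lt_of_lt_of_le he heρ
  have hρ1 : ρ ≤ 1 := by linarith
  have hρa : 20 * K ^ 2 * C' * ρ ≤ 1 := by
    calc 20 * K ^ 2 * C' * ρ ≤ 20 * K ^ 2 * C' * ρ₁ :=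
          mul_le_mul_of_nonneg_left hρ (by positivity)
      _ = 1 := by
          rw [hρ₁]
          field_simp
  have hKC0 : 0 ≤ K ^ 2 * C' * ρ := by positivity
  have hρb : 20 * (K ^ 2 * C' * ρ) ≤ 1 := by
    have h1 : 20 * (K ^ 2 * C' * ρ) = 20 * K ^ 2 * C' * ρ := by ring
    rw [h1]
    exact hρa
  have hρ2 : 2 * K ^ 2 * C' * ρ ≤ 1 := by
    have h1 : 2 * K ^ 2 * C' * ρ = 2 * (K ^ 2 * C' * ρ) := by ring
    rw [h1]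
    linarith
  have hρ3 : 2 * K ^ 2 * ρ ≤ 1 / 10 := by
    have h0 : 0 ≤ K ^ 2 * ρ := by positivity
    have h1 : K ^ 2 * ρ * 1 ≤ K ^ 2 * ρ * C' := mul_le_mul_of_nonneg_left hC'1 h0
    have h2 : K ^ 2 * ρ * C' = K ^ 2 * C' * ρ := by ring
    have h3 : 2 * K ^ 2 * ρ = 2 * (K ^ 2 * ρ * 1) := by ring
    rw [h3]
    linarith
  -- the three elements
  have hKe : 2 * K ^ 2 * e ≤ 1 / 10 := by
    have : 2 * K ^ 2 * e ≤ 2 * K ^ 2 * ρ := mul_le_mul_of_nonneg_left heρ (by positivity)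
    linarith
  have hKe1 : e ≤ K ^ 2 * e := by
    calc e = 1 * e := (one_mul e).symm
      _ ≤ K ^ 2 * e := mul_le_mul_of_nonneg_right hK2 he.le
  have he10 : 2 * e ≤ 1 / 10 := by
    have h3 : 2 * K ^ 2 * e = 2 * (K ^ 2 * e) := by ring
    rw [h3] at hKe
    linarith
  have hta := ht a (ha.nr.trans he10)
  obtain ⟨ta1, ta2, ta3, ta4, ta5⟩ := hta
  obtain ⟨g, hg, g', hg', hgK, hg'K, htd, _⟩ := hc3 (tl a) ta4
  rw [ha.sz] at htd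
  have hcj : ∀ x : SL2, nrm x.1 ≤ K → nrm (tl (x * a * x⁻¹)) ≤ K ^ 2 * e ∧
      nrm ((x * a * x⁻¹).1 - 1) ≤ 2 * K ^ 2 * e := by
    intro x hx
    constructor
    · rw [ta5 x]
      unfold cj
      have h1 : nrm (x.1 * tl a * (x⁻¹).1) ≤ nrm x.1 * nrm (tl a) * nrm (x⁻¹).1 :=
        (nmul _ _).trans (mul_le_mul_of_nonneg_right (nmul _ _) (n0 _))
      rw [ninv', ha.sz] at h1
      have h2 : nrm x.1 * e * nrm x.1 ≤ K * e * K :=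
        mul_le_mul (mul_le_mul_of_nonneg_right hx he.le) hx (n0 _) (by positivity)
      calc nrm (x.1 * tl a * (x⁻¹).1) ≤ nrm x.1 * e * nrm x.1 := h1
        _ ≤ K * e * K := h2
        _ = K ^ 2 * e := by ring
    · have h1 := bconj x⁻¹ a
      rw [inv_inv, ninv'] at h1
      refine h1.trans ?_
      calc nrm x.1 ^ 2 * nrm (a.1 - 1) ≤ K ^ 2 * (2 * e) :=
            mul_le_mul (pow_le_pow_left₀ (n0 _) hx 2) ha.nr (n0 _) (by positivity)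
        _ = 2 * K ^ 2 * e := by ring
  obtain ⟨hg1, hg2⟩ := hcj g hgK
  obtain ⟨hg'1, hg'2⟩ := hcj g' hg'K
  have ha1 : nrm (tl a) ≤ K ^ 2 * e := by
    rw [ha.sz]
    exact hKe1
  have ha2 : nrm (a.1 - 1) ≤ 2 * K ^ 2 * e := by
    refine ha.nr.trans ?_
    have h3 : 2 * K ^ 2 * e = 2 * (K ^ 2 * e) := by ring
    rw [h3]
    linarith
  set b := g * a * g⁻¹ with hb
  set b' := g' * a * g'⁻¹ with hb'
  rw [← ta5 g, ← ta5 g', ← hb, ← hb'] at htd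
  clear_value b b'
  have tb := ht b (hg2.trans hKe)
  have tb' := ht b' (hg'2.trans hKe)
  -- q
  have hq' : nrm (q.1 - 1) < ρ := hq
  have tq := ht q (by linarith)
  set Y := tl q with hY
  clear_value Y
  have hYρ : nrm Y ≤ ρ := by linarith [tq.2.2.1]
  set Δ := tdet (tl a) (tl b) (tl b') with hΔ
  clear_value Δ
  have hΔ0 : 0 < |Δ| := lt_of_lt_of_le (by positivity) htd
  have hΔne : Δ ≠ 0 := abs_pos.1 hΔ0
  have hcram := greedy_cramer Y (tl a) (tl b) (tl b') tq.2.2.2.1 ta4 tb.2.2.2.1 tb'.2.2.2.1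
  rw [← hΔ] at hcram
  -- bound for the coefficients
  have hK4 : 0 ≤ K ^ 4 := by positivity
  have hco : ∀ T : ℝ, |T| ≤ 6 * (ρ * (K ^ 2 * e) * (K ^ 2 * e)) →
      |((round (T / Δ) : ℤ) : ℝ)| ≤ C' * ρ / e ∧ |T / Δ - ((round (T / Δ) : ℤ) : ℝ)| ≤ 1 / 2 := by
    intro T hT
    have h1 : |T / Δ| ≤ 6 * K ^ 4 / c * (ρ / e) := by
      rw [abs_div, div_le_iff₀ hΔ0]
      refine hT.trans ?_
      calc 6 * (ρ * (K ^ 2 * e) * (K ^ 2 * e)) = 6 * K ^ 4 / c * (ρ / e) * (c * e ^ 3) := by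
            field_simp
        _ ≤ 6 * K ^ 4 / c * (ρ / e) * |Δ| := by
            apply mul_le_mul_of_nonneg_left htd
            positivity
    have h2 := abs_sub_round (T / Δ)
    refine ⟨?_, h2⟩
    have h3 : 1 ≤ ρ / e := by
      rw [le_div_iff₀ he]
      linarith
    have h4 : |((round (T / Δ) : ℤ) : ℝ)| ≤ |T / Δ| + |T / Δ - ((round (T / Δ) : ℤ) : ℝ)| := by
      have e1 : ((round (T / Δ) : ℤ) : ℝ) = T / Δ - (T / Δ - ((round (T / Δ) : ℤ) : ℝ)) := by ring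
      calc |((round (T / Δ) : ℤ) : ℝ)| = |T / Δ - (T / Δ - ((round (T / Δ) : ℤ) : ℝ))| := by
            rw [← e1]
        _ ≤ _ := abs_sub _ _
    have h5 : C' * ρ / e = 6 * K ^ 4 / c * (ρ / e) + ρ / e := by
      rw [hC']
      ring
    rw [h5]
    linarith
  have hKe0 : 0 ≤ K ^ 2 * e := by positivity
  have hT1 : |tdet Y (tl b) (tl b')| ≤ 6 * (ρ * (K ^ 2 * e) * (K ^ 2 * e)) := by
    refine (greedy_tdet nent _ _ _).trans ?_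
    apply mul_le_mul_of_nonneg_left _ (by norm_num)
    exact mul_le_mul (mul_le_mul hYρ hg1 (n0 _) hρ0.le) hg'1 (n0 _) (by positivity)
  have hT2 : |tdet (tl a) Y (tl b')| ≤ 6 * (ρ * (K ^ 2 * e) * (K ^ 2 * e)) := by
    refine (greedy_tdet nent _ _ _).trans ?_
    apply mul_le_mul_of_nonneg_left _ (by norm_num)
    calc nrm (tl a) * nrm Y * nrm (tl b') ≤ (K ^ 2 * e) * ρ * (K ^ 2 * e) :=
          mul_le_mul (mul_le_mul ha1 hYρ (n0 _) hKe0) hg'1 (n0 _) (by positivity)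
      _ = ρ * (K ^ 2 * e) * (K ^ 2 * e) := by ring
  have hT3 : |tdet (tl a) (tl b) Y| ≤ 6 * (ρ * (K ^ 2 * e) * (K ^ 2 * e)) := by
    refine (greedy_tdet nent _ _ _).trans ?_
    apply mul_le_mul_of_nonneg_left _ (by norm_num)
    calc nrm (tl a) * nrm (tl b) * nrm Y ≤ (K ^ 2 * e) * (K ^ 2 * e) * ρ :=
          mul_le_mul (mul_le_mul ha1 hg1 (n0 _) hKe0) hYρ (n0 _) (by positivity)
      _ = ρ * (K ^ 2 * e) * (K ^ 2 * e) := by ring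
  obtain ⟨m1, r1⟩ := hco _ hT1
  obtain ⟨m2, r2⟩ := hco _ hT2
  obtain ⟨m3, r3⟩ := hco _ hT3
  set t₁ := tdet Y (tl b) (tl b') / Δ with ht₁
  set t₂ := tdet (tl a) Y (tl b') / Δ with ht₂
  set t₃ := tdet (tl a) (tl b) Y / Δ with ht₃
  set k₁ := round t₁ with hk₁
  set k₂ := round t₂ with hk₂
  set k₃ := round t₃ with hk₃
  have hYeq : Y = t₁ • tl a + t₂ • tl b + t₃ • tl b' := by
    have h1 : Y = Δ⁻¹ • (Δ • Y) := by
      rw [smul_smul, inv_mul_cancel₀ hΔne, one_smul]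
    rw [h1, hcram, smul_add, smul_add, smul_smul, smul_smul, smul_smul, ht₁, ht₂, ht₃]
    simp only [div_eq_inv_mul]
  obtain ⟨f1, f1'⟩ := greedy_factor hn ht hp K C' hK hC'1 e ρ he heρ hρ1 hρ2 hρ3 a ha2 ha1 k₁ m1
  obtain ⟨f2, f2'⟩ := greedy_factor hn ht hp K C' hK hC'1 e ρ he heρ hρ1 hρ2 hρ3 b hg2 hg1 k₂ m2
  obtain ⟨f3, f3'⟩ := greedy_factor hn ht hp K C' hK hC'1 e ρ he heρ hρ1 hρ2 hρ3 b' hg'2 hg'1 k₃ m3
  rw [← hD] at f1 f1' f2 f2' f3 f3'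
  rw [← hF] at f1' f2' f3'
  obtain ⟨p1, p2⟩ := greedy_prod hn _ _ _ _ _ _ D F ρ hF0 hρ0 hρ1 f1 f2 f3 f1' f2' f3'
  set w : SL2 := a ^ k₁ * b ^ k₂ * b' ^ k₃ with hw
  have hwval : w.1 = (1 + ((a ^ k₁).1 - 1)) * (1 + ((b ^ k₂).1 - 1)) * (1 + ((b' ^ k₃).1 - 1)) := by
    rw [hw, Matrix.SpecialLinearGroup.coe_mul, Matrix.SpecialLinearGroup.coe_mul]
    simp only [add_sub_cancel]
  rw [← hwval] at p1 p2
  -- distance
  have hqw : nrm (q.1 - w.1) ≤ (2 + 3 * D + 3 * F ^ 2 + F ^ 3 + 2 * K ^ 2) * (e + ρ ^ 2) := by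
    have e1 : q.1 - w.1 = (q.1 - 1 - Y) +
        ((t₁ - (k₁ : ℝ)) • tl a + (t₂ - (k₂ : ℝ)) • tl b + (t₃ - (k₃ : ℝ)) • tl b') -
        (w.1 - 1 - ((k₁ : ℝ) • tl a + (k₂ : ℝ) • tl b + (k₃ : ℝ) • tl b')) := by
      rw [sub_smul, sub_smul, sub_smul]
      have : Y = t₁ • tl a + t₂ • tl b + t₃ • tl b' := hYeq
      rw [this]
      abel
    rw [e1]
    have s1 := nsub ((q.1 - 1 - Y) +
        ((t₁ - (k₁ : ℝ)) • tl a + (t₂ - (k₂ : ℝ)) • tl b + (t₃ - (k₃ : ℝ)) • tl b'))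
        (w.1 - 1 - ((k₁ : ℝ) • tl a + (k₂ : ℝ) • tl b + (k₃ : ℝ) • tl b'))
    have s2 := nadd (q.1 - 1 - Y)
        ((t₁ - (k₁ : ℝ)) • tl a + (t₂ - (k₂ : ℝ)) • tl b + (t₃ - (k₃ : ℝ)) • tl b')
    have s3 := nadd ((t₁ - (k₁ : ℝ)) • tl a + (t₂ - (k₂ : ℝ)) • tl b) ((t₃ - (k₃ : ℝ)) • tl b')
    have s4 := nadd ((t₁ - (k₁ : ℝ)) • tl a) ((t₂ - (k₂ : ℝ)) • tl b)
    have u1 : nrm ((t₁ - (k₁ : ℝ)) • tl a) ≤ 1 / 2 * (K ^ 2 * e) := by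
      rw [nsmul]
      exact mul_le_mul r1 ha1 (n0 _) (by norm_num)
    have u2 : nrm ((t₂ - (k₂ : ℝ)) • tl b) ≤ 1 / 2 * (K ^ 2 * e) := by
      rw [nsmul]
      exact mul_le_mul r2 hg1 (n0 _) (by norm_num)
    have u3 : nrm ((t₃ - (k₃ : ℝ)) • tl b') ≤ 1 / 2 * (K ^ 2 * e) := by
      rw [nsmul]
      exact mul_le_mul r3 hg'1 (n0 _) (by norm_num)
    have u4 : nrm (q.1 - 1 - Y) ≤ 2 * ρ ^ 2 := by
      refine tq.1.trans ?_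
      apply mul_le_mul_of_nonneg_left _ (by norm_num)
      exact pow_le_pow_left₀ (n0 _) hYρ 2
    have hρsq : 0 ≤ ρ ^ 2 := by positivity
    have v1 : (2 + 3 * D + 3 * F ^ 2 + F ^ 3 + 2 * K ^ 2) * (e + ρ ^ 2) =
        2 * ρ ^ 2 + (3 * D + 3 * F ^ 2 + F ^ 3) * ρ ^ 2 + 2 * K ^ 2 * ρ ^ 2 +
        (2 + 3 * D + 3 * F ^ 2 + F ^ 3) * e + 2 * (K ^ 2 * e) := by ring
    have v2 : 0 ≤ (2 + 3 * D + 3 * F ^ 2 + F ^ 3) * e := by positivity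
    have v3 : 0 ≤ 2 * K ^ 2 * ρ ^ 2 := by positivity
    rw [v1]
    linarith
  have hwK : nrm w.1 ≤ (2 + F) ^ 3 := p2
  have hfin : nrm ((w⁻¹ * q).1 - 1) < C₂ * (e + ρ ^ 2) := by
    refine lt_of_le_of_lt (bq w q) ?_
    have h1 : nrm w.1 * nrm (q.1 - w.1) ≤
        (2 + F) ^ 3 * ((2 + 3 * D + 3 * F ^ 2 + F ^ 3 + 2 * K ^ 2) * (e + ρ ^ 2)) :=
      mul_le_mul hwK hqw (n0 _) (by positivity)
    have h2 : C₂ * (e + ρ ^ 2) =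
        (2 + F) ^ 3 * ((2 + 3 * D + 3 * F ^ 2 + F ^ 3 + 2 * K ^ 2) * (e + ρ ^ 2)) +
        (e + ρ ^ 2) := by
      rw [hC₂]
      ring
    have h3 : 0 < e + ρ ^ 2 := by positivity
    rw [h2]
    linarith
  -- lengths
  have hbE : b ∈ E (l + 2 * L₀) := by
    have h1 := hE.mul _ _ _ _ (hE.mul _ _ _ _ hg ha.mem) (hE.inv _ _ hg)
    have h2 : L₀ + l + L₀ = l + 2 * L₀ := by ring
    rw [h2] at h1
    rw [hb]
    exact h1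
  have hb'E : b' ∈ E (l + 2 * L₀) := by
    have h1 := hE.mul _ _ _ _ (hE.mul _ _ _ _ hg' ha.mem) (hE.inv _ _ hg')
    have h2 : L₀ + l + L₀ = l + 2 * L₀ := by ring
    rw [h2] at h1
    rw [hb']
    exact h1
  have haE : a ∈ E (l + 2 * L₀) := hE.mono _ _ (by omega) ha.mem
  have hwE : w ∈ E ((k₁.natAbs + k₂.natAbs + k₃.natAbs) * (l + 2 * L₀)) := by
    rw [add_mul, add_mul]
    exact hE.mul _ _ _ _ (hE.mul _ _ _ _ (greedy_zpow E hE a _ haE k₁)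
      (greedy_zpow E hE b _ hbE k₂)) (greedy_zpow E hE b' _ hb'E k₃)
  have hcount : k₁.natAbs + k₂.natAbs + k₃.natAbs ≤ ⌈3 * C' * ρ / e⌉₊ := by
    have h1 : ((k₁.natAbs + k₂.natAbs + k₃.natAbs : ℕ) : ℝ) ≤ 3 * C' * ρ / e := by
      push_cast
      have hab : ∀ k : ℤ, ((k.natAbs : ℕ) : ℝ) = |(k : ℝ)| := by
        intro k
        rw [Nat.cast_natAbs, Int.cast_abs]
      rw [hab, hab, hab]
      have : 3 * C' * ρ / e = C' * ρ / e + C' * ρ / e + C' * ρ / e := by ring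
      rw [this]
      exact add_le_add (add_le_add m1 m2) m3
    exact_mod_cast h1.trans (Nat.le_ceil _)
  exact ⟨w, hE.mono _ _ (Nat.mul_le_mul_right _ hcount) hwE, hfin⟩

end Pool.Agent.MPEF
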