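import Pool.Agent.Lib.MP_ef3f0f_gt.N.Spec

set_option autoImplicit false

/-! The Frobenius norm of real `2 × 2` matrices. -/

namespace Pool.Agent.MPEF

open scoped Pointwise

private theorem nrm_sq (A : M2) : nrm A ^ 2 = A 0 0 ^ 2 + A 0 1 ^ 2 + A 1 0 ^ 2 + A 1 1 ^ 2 :=
  Real.sq_sqrt (by positivity)

private theorem nrm_nn (A : M2) : 0 ≤ nrm A := Real.sqrt_nonneg _

private theorem nrm_cs (a b c d a' b' c' d' : ℝ) :
    (a * a' + b * b' + c * c' + d * d') ^ 2 ≤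
      (a ^ 2 + b ^ 2 + c ^ 2 + d ^ 2) * (a' ^ 2 + b' ^ 2 + c' ^ 2 + d' ^ 2) := by
  have h : (a ^ 2 + b ^ 2 + c ^ 2 + d ^ 2) * (a' ^ 2 + b' ^ 2 + c' ^ 2 + d' ^ 2) -
      (a * a' + b * b' + c * c' + d * d') ^ 2 =
      (a * b' - b * a') ^ 2 + (a * c' - c * a') ^ 2 + (a * d' - d * a') ^ 2 +
      (b * c' - c * b') ^ 2 + (b * d' - d * b') ^ 2 + (c * d' - d * c') ^ 2 := by ring
  have h2 : 0 ≤ (a * b' - b * a') ^ 2 + (a * c' - c * a') ^ 2 + (a * d' - d * a') ^ 2 +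
      (b * c' - c * b') ^ 2 + (b * d' - d * b') ^ 2 + (c * d' - d * c') ^ 2 := by positivity
  linarith

private theorem nrm_add (A B : M2) : nrm (A + B) ≤ nrm A + nrm B := by
  have hcs := nrm_cs (A 0 0) (A 0 1) (A 1 0) (A 1 1) (B 0 0) (B 0 1) (B 1 0) (B 1 1)
  rw [← nrm_sq, ← nrm_sq, ← mul_pow] at hcs
  have h1 := abs_le_of_sq_le_sq hcs (mul_nonneg (nrm_nn A) (nrm_nn B))
  have h2 := (abs_le.1 h1).2
  refine le_of_sq_le_sq ?_ (add_nonneg (nrm_nn A) (nrm_nn B))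
  rw [nrm_sq, add_sq, nrm_sq, nrm_sq]
  simp only [Matrix.add_apply]
  nlinarith

private theorem nrm_smul (c : ℝ) (A : M2) : nrm (c • A) = |c| * nrm A := by
  have h : nrm (c • A) ^ 2 = (|c| * nrm A) ^ 2 := by
    rw [mul_pow, sq_abs, nrm_sq, nrm_sq]
    simp only [Matrix.smul_apply, smul_eq_mul]
    ring
  exact (pow_left_inj₀ (nrm_nn _) (mul_nonneg (abs_nonneg c) (nrm_nn A)) two_ne_zero).1 h

private theorem nrm_mul (A B : M2) : nrm (A * B) ≤ nrm A * nrm B := by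
  refine le_of_sq_le_sq ?_ (mul_nonneg (nrm_nn A) (nrm_nn B))
  rw [mul_pow, nrm_sq, nrm_sq, nrm_sq]
  simp only [Matrix.mul_apply, Fin.sum_univ_two]
  nlinarith [sq_nonneg (A 0 0 * B 1 0 - A 0 1 * B 0 0), sq_nonneg (A 0 0 * B 1 1 - A 0 1 * B 0 1),
    sq_nonneg (A 1 0 * B 1 0 - A 1 1 * B 0 0), sq_nonneg (A 1 0 * B 1 1 - A 1 1 * B 0 1)]

private theorem nrm_adj (A : M2) : nrm A.adjugate = nrm A := by
  unfold nrm
  rw [Matrix.adjugate_fin_two]
  congr 1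
  simp
  ring

private theorem nrm_entry (A : M2) (i j : Fin 2) : |A i j| ≤ nrm A := by
  refine Real.abs_le_sqrt ?_
  fin_cases i <;> fin_cases j <;> simp <;> nlinarith [sq_nonneg (A 0 0), sq_nonneg (A 0 1),
    sq_nonneg (A 1 0), sq_nonneg (A 1 1)]

private theorem nrm_cont : Continuous nrm := by
  have h : ∀ i j : Fin 2, Continuous fun A : M2 => A i j := fun i j =>
    continuous_id.matrix_elem i j
  unfold nrm
  exact Real.continuous_sqrt.comp (((((h 0 0).pow 2).add ((h 0 1).pow 2)).add ((h 1 0).pow 2)).add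
    ((h 1 1).pow 2))

private theorem nrm_inv (g : SL2) : (g⁻¹).1 = g.1.adjugate := rfl

private theorem nrm_ge (g : SL2) : Real.sqrt 2 ≤ nrm g.1 := by
  refine Real.sqrt_le_sqrt ?_
  have h : g.1 0 0 * g.1 1 1 - g.1 0 1 * g.1 1 0 = 1 := by
    rw [← Matrix.det_fin_two]; exact g.2
  nlinarith [sq_nonneg (g.1 0 0 - g.1 1 1), sq_nonneg (g.1 0 1 + g.1 1 0)]

theorem tnrm : S_nrm := by
  refine ⟨nrm_nn, fun A => ⟨fun h => ?_, fun h => ?_⟩, nrm_add, fun A B => ?_, nrm_smul, nrm_mul,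
    nrm_adj, nrm_entry, nrm_sq, nrm_cont, ?_, nrm_inv, fun g => ?_, nrm_ge⟩
  · ext i j
    have := nrm_entry A i j
    rw [h] at this
    exact abs_nonpos_iff.1 this
  · rw [h]
    simp [nrm]
  · have h : nrm (-B) = nrm B := by
      have := nrm_smul (-1) B
      simpa using this
    rw [sub_eq_add_neg, ← h]
    exact nrm_add A (-B)
  · unfold nrm
    simp
    norm_num
  · rw [nrm_inv, nrm_adj]

end Pool.Agent.MPEF
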