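import Pool.Agent.Lib.MP_ef3f0f_gt.N.Spec

set_option autoImplicit false

/-!
# MP_ef3f0f_gt, net lemma: powers near `1`
-/

namespace Pool.Agent.MPEF

open scoped Pointwise

private theorem pow_nat (h : S_nrm) (g : SL2) (δ : ℝ) (hg : nrm (g.1 - 1) ≤ δ) :
    ∀ n : ℕ, (n : ℝ) * δ ≤ 1 →
      nrm ((g ^ n).1 - 1 - (n : ℝ) • (g.1 - 1)) ≤ ((n : ℝ) * δ) ^ 2 := by
  obtain ⟨h0, -, hadd, -, hsmul, hmul, -⟩ := h
  have hδ : 0 ≤ δ := (h0 _).trans hg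
  intro n
  induction n with
  | zero =>
    intro _
    have h1 : ((g ^ 0).1 - 1 - ((0 : ℕ) : ℝ) • (g.1 - 1) : M2) = (0 : ℝ) • (1 : M2) := by
      simp
    rw [h1, hsmul]
    simp
  | succ n ih =>
    intro hn
    have hn1 : (n : ℝ) * δ ≤ 1 := by
      push_cast at hn
      nlinarith
    have h2 := ih hn1
    set Y : M2 := g.1 - 1 with hY
    set B : M2 := (g ^ n).1 - 1 - (n : ℝ) • Y with hB
    have h3 : ((g ^ (n + 1)).1 - 1 - ((n + 1 : ℕ) : ℝ) • Y : M2) =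
        (B + B * Y) + (n : ℝ) • (Y * Y) := by
      have h4 : (g ^ (n + 1)).1 = (g ^ n).1 * g.1 := by rw [pow_succ]; rfl
      have h5 : (g ^ n).1 = 1 + (n : ℝ) • Y + B := by rw [hB]; abel
      have h6 : g.1 = 1 + Y := by rw [hY]; abel
      rw [h4, h5, h6]
      push_cast
      simp only [add_mul, mul_add, mul_one, one_mul, add_smul, one_smul, smul_mul_assoc]
      abel
    rw [h3]
    have h7 : nrm (B * Y) ≤ nrm B * δ :=
      (hmul B Y).trans (mul_le_mul_of_nonneg_left hg (h0 _))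
    have h8 : nrm ((n : ℝ) • (Y * Y)) ≤ n * δ ^ 2 := by
      rw [hsmul, abs_of_nonneg (Nat.cast_nonneg n)]
      refine mul_le_mul_of_nonneg_left ((hmul Y Y).trans ?_) (Nat.cast_nonneg n)
      rw [sq]
      exact mul_le_mul hg hg (h0 _) hδ
    have h9 := hadd (B + B * Y) ((n : ℝ) • (Y * Y))
    have h10 := hadd B (B * Y)
    have h11 : (0 : ℝ) ≤ n := Nat.cast_nonneg n
    have h12 : nrm B * δ ≤ ((n : ℝ) * δ) ^ 2 * δ := mul_le_mul_of_nonneg_right h2 hδ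
    have h13 : ((n : ℝ) * δ) ^ 2 * δ ≤ n * δ ^ 2 := by
      have : ((n : ℝ) * δ) ^ 2 * δ = (n * δ ^ 2) * (n * δ) := by ring
      rw [this]
      exact mul_le_of_le_one_right (by positivity) hn1
    have h14 : (((n + 1 : ℕ) : ℝ) * δ) ^ 2 = ((n : ℝ) * δ) ^ 2 + 2 * (n * δ ^ 2) + δ ^ 2 := by
      push_cast
      ring
    rw [h14]
    have h15 : 0 ≤ δ ^ 2 := sq_nonneg δ
    linarith

private theorem pow_adj (h : S_nrm) (g : SL2) (δ : ℝ) (hg : nrm (g.1 - 1) ≤ δ) :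
    nrm ((g⁻¹).1 - 1) ≤ δ ∧ nrm (((g⁻¹).1 - 1) + (g.1 - 1)) ≤ δ ^ 2 := by
  obtain ⟨h0, -, hadd, -, hsmul, hmul, hadj, -, hsq, -, h1, hinv, -⟩ := h
  have hδ : 0 ≤ δ := (h0 _).trans hg
  set Y : M2 := g.1 - 1 with hY
  have h6 : g.1 = 1 + Y := by rw [hY]; abel
  have h2 : (g⁻¹).1 - 1 = Y.adjugate := by
    rw [hinv, h6]
    ext i j
    fin_cases i <;> fin_cases j <;> simp [Matrix.adjugate_fin_two]
  rw [h2, hadj]
  refine ⟨hg, ?_⟩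
  have hdet : Y 0 0 + Y 1 1 = - (Y 0 0 * Y 1 1 - Y 0 1 * Y 1 0) := by
    have h3 : g.1.det = 1 := g.2
    rw [h6, Matrix.det_fin_two] at h3
    simp at h3
    linarith
  have h4 : Y.adjugate + Y = (Y 0 0 + Y 1 1) • (1 : M2) := by
    ext i j
    fin_cases i <;> fin_cases j <;> (simp [Matrix.adjugate_fin_two]; try ring)
  rw [h4, hsmul, h1]
  have h5 : nrm Y ^ 2 ≤ δ ^ 2 := pow_le_pow_left₀ (h0 _) hg 2
  rw [hsq] at h5
  have h7 : |Y 0 0 + Y 1 1| ≤ δ ^ 2 / 2 := by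
    rw [hdet, abs_le]
    constructor <;> nlinarith [sq_nonneg (Y 0 0 + Y 1 1), sq_nonneg (Y 0 0 - Y 1 1),
      sq_nonneg (Y 0 1 + Y 1 0), sq_nonneg (Y 0 1 - Y 1 0)]
  have h8 : Real.sqrt 2 ≤ 2 := by
    rw [show (2 : ℝ) = Real.sqrt 4 by
      rw [show (4 : ℝ) = 2 ^ 2 by norm_num, Real.sqrt_sq two_pos.le]]
    exact Real.sqrt_le_sqrt (by norm_num)
  calc |Y 0 0 + Y 1 1| * Real.sqrt 2 ≤ δ ^ 2 / 2 * 2 :=
        mul_le_mul h7 h8 (Real.sqrt_nonneg _) (by positivity)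
    _ = δ ^ 2 := by ring

theorem tPow : S_nrm → S_pow := by
  intro h g δ n hg _ hn
  have hδ : 0 ≤ δ := (h.1 _).trans hg
  obtain ⟨m, rfl | rfl⟩ := Int.eq_nat_or_neg n
  · rw [Int.cast_natCast, Nat.abs_cast] at hn ⊢
    have h1 := pow_nat h g δ hg m hn
    rw [zpow_natCast]
    nlinarith [sq_nonneg ((m : ℝ) * δ)]
  · rw [Int.cast_neg, Int.cast_natCast, abs_neg, Nat.abs_cast] at hn ⊢
    obtain ⟨h2, h3⟩ := pow_adj h g δ hg
    have h1 := pow_nat h g⁻¹ δ h2 m hn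
    have h4 : ((g ^ (-(m : ℤ))).1 - 1 - (-(m : ℝ)) • (g.1 - 1) : M2) =
        ((g⁻¹ ^ m).1 - 1 - (m : ℝ) • ((g⁻¹).1 - 1)) +
          (m : ℝ) • (((g⁻¹).1 - 1) + (g.1 - 1)) := by
      rw [zpow_neg, zpow_natCast, ← inv_pow]
      simp only [smul_add, neg_smul, smul_sub]
      abel
    rw [h4]
    have h5 := h.2.2.1 ((g⁻¹ ^ m).1 - 1 - (m : ℝ) • ((g⁻¹).1 - 1))
      ((m : ℝ) • (((g⁻¹).1 - 1) + (g.1 - 1)))
    rw [h.2.2.2.2.1, Nat.abs_cast] at h5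
    have h6 : (m : ℝ) * nrm (((g⁻¹).1 - 1) + (g.1 - 1)) ≤ ((m : ℝ) * δ) ^ 2 := by
      rcases Nat.eq_zero_or_pos m with rfl | hm
      · simp
      · have h7 : (1 : ℝ) ≤ m := by exact_mod_cast hm
        have h8 : (m : ℝ) * nrm (((g⁻¹).1 - 1) + (g.1 - 1)) ≤ m * δ ^ 2 :=
          mul_le_mul_of_nonneg_left h3 (by linarith)
        nlinarith [sq_nonneg δ, mul_nonneg (by linarith : (0 : ℝ) ≤ m) (sq_nonneg δ)]
    nlinarith [sq_nonneg ((m : ℝ) * δ)]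

end Pool.Agent.MPEF
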