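import Pool.Agent.Lib.MP_ef3f0f_gt.N.Spec

set_option autoImplicit false

/-! MP_ef3f0f_gt, part II.3, module start: small elements exist. -/

namespace Pool.Agent.MPEF

open scoped Pointwise

/-- a unipotent element -/
private def start_u (t : ℝ) : SL2 := ⟨!![1, t; 0, 1], by simp [Matrix.det_fin_two]⟩

private theorem start_tl_u (t : ℝ) : tl (start_u t) = !![0, t; 0, 0] := by
  unfold tl tr2 start_u
  ext i j
  fin_cases i <;> fin_cases j <;> simp [Matrix.trace_fin_two]

private theorem start_nrm_u (t : ℝ) (ht : 0 ≤ t) : nrm ((start_u t).1 - 1) = t := by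
  unfold nrm start_u
  simp [Real.sqrt_sq ht]

private theorem start_cont_tl : Continuous tl := by
  unfold tl tr2
  fun_prop

theorem tstart : S_nrm → S_tlnr → S_start := by
  intro hn ht E hE δ hδ
  obtain ⟨h0, h00, -, -, -, -, -, -, -, hcont, -⟩ := hn
  have hδ' : 0 < min δ (1 / 10) := lt_min hδ (by norm_num)
  have hU : IsOpen {g : SL2 | nrm (g.1 - 1) < min δ (1 / 10) ∧ tl g ≠ 0} := by
    refine IsOpen.inter ?_ ?_
    · exact isOpen_lt (hcont.comp (continuous_subtype_val.sub continuous_const)) continuous_const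
    · exact isOpen_ne_fun start_cont_tl continuous_const
  have hne : {g : SL2 | nrm (g.1 - 1) < min δ (1 / 10) ∧ tl g ≠ 0}.Nonempty := by
    refine ⟨start_u (min δ (1 / 10) / 2), ?_, ?_⟩
    · rw [start_nrm_u _ (by positivity)]
      linarith
    · rw [start_tl_u]
      intro h
      have h1 := congrFun (congrFun h 0) 1
      simp only [Matrix.of_apply, Matrix.cons_val', Matrix.cons_val_one, Matrix.cons_val_zero,
        Matrix.zero_apply, Matrix.cons_val_fin_one] at h1
      linarith
  obtain ⟨a, ⟨ha1, ha2⟩, ha3⟩ := hE.dense.inter_open_nonempty _ hU hne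
  obtain ⟨l, hl⟩ := Set.mem_iUnion.1 ha3
  obtain ⟨-, h2, h3, -, -⟩ := ht a (le_trans ha1.le (min_le_right _ _))
  refine ⟨a, l, nrm (tl a), lt_of_le_of_lt h3 (lt_of_lt_of_le ha1 (min_le_left _ _)), hl, ?_, rfl, h2⟩
  exact lt_of_le_of_ne (h0 _) (fun h => ha2 ((h00 _).1 h.symm))

end Pool.Agent.MPEF
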