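import Pool.Agent.Lib.MP_ef3f0f_gt.N.Spec

set_option autoImplicit false

/-! MP_ef3f0f_gt, part II.3, module step: squaring the size. -/

namespace Pool.Agent.MPEF

open scoped Pointwise

private theorem step_conj (g a : SL2) : (g * a * g⁻¹).1 - 1 = g.1 * (a.1 - 1) * (g⁻¹).1 := by
  have h1 : g.1 * (g⁻¹).1 = 1 := by
    have := congrArg Subtype.val (mul_inv_cancel g)
    exact this
  have h2 : (g * a * g⁻¹).1 = g.1 * a.1 * (g⁻¹).1 := rfl
  rw [h2, mul_sub, sub_mul, mul_one, h1]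

theorem tstep : S_nrm → S_conj3 → S_comm → S_tlnr → S_step := by
  intro hn hc3 hcm htl E hE
  obtain ⟨n0, -, nadd, nsub, -, nmul, -, -, -, -, -, -, ninv, -⟩ := hn
  obtain ⟨c, L₀, K, c0, K1, hcj⟩ := hc3 E hE
  have K0 : 0 < K := by linarith
  have hK2 : 1 ≤ K ^ 2 := one_le_pow₀ K1
  have hK4 : 1 ≤ K ^ 4 := one_le_pow₀ K1
  refine ⟨c / 2, 40 * K ^ 4, min (1 / (20 * K ^ 2)) (c / (160 * K ^ 6)), 4 * L₀, by positivity, by linarith,
    by positivity, ?_, ?_⟩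
  · refine le_trans (min_le_left _ _) ?_
    rw [div_le_one (by positivity)]
    linarith
  intro a l e ha he
  obtain ⟨hmem, hpos, hsz, hnr⟩ := ha
  have e1 : e ≤ 1 / (20 * K ^ 2) := le_trans he (min_le_left _ _)
  have e2 : e ≤ c / (160 * K ^ 6) := le_trans he (min_le_right _ _)
  rw [le_div_iff₀ (by positivity)] at e1 e2
  set δ : ℝ := 2 * K ^ 2 * e with hδ
  have hδ0 : 0 ≤ δ := by positivity
  have hδ1 : δ ≤ 1 / 10 := by rw [hδ]; linarith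
  have ha1 : nrm (a.1 - 1) ≤ δ := by
    rw [hδ]
    nlinarith
  have ha2 : nrm (a.1 - 1) ≤ 1 / 10 := ha1.trans hδ1
  obtain ⟨-, -, -, t4, t5⟩ := htl a ha2
  obtain ⟨g, hg, -, -, hgK, -, -, hbrk⟩ := hcj (tl a) t4
  set h : SL2 := g * a * g⁻¹ with hh
  have hh1 : nrm (h.1 - 1) ≤ δ := by
    rw [hh, step_conj]
    have s1 := nmul (g.1 * (a.1 - 1)) (g⁻¹).1
    have s2 := nmul g.1 (a.1 - 1)
    rw [ninv] at s1
    have s3 : nrm g.1 * nrm (a.1 - 1) ≤ K * (2 * e) := mul_le_mul hgK hnr (n0 _) K0.le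
    have s4 : nrm (g.1 * (a.1 - 1)) * nrm g.1 ≤ K * (2 * e) * K :=
      mul_le_mul (s2.trans s3) hgK (n0 _) (by positivity)
    rw [hδ]
    linarith [s1, s4, (by ring : K * (2 * e) * K = 2 * K ^ 2 * e)]
  have hth : tl h = cj g (tl a) := t5 g
  obtain ⟨q1, q2⟩ := hcm a h δ hδ0 hδ1 ha1 hh1
  rw [hth] at q1
  have hδ2 : 10 * δ ^ 2 ≤ 1 / 10 := by nlinarith
  obtain ⟨-, r2, r3, -, -⟩ := htl (a * h * a⁻¹ * h⁻¹) (q2.trans hδ2)
  set a' : SL2 := a * h * a⁻¹ * h⁻¹ with ha'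
  have hlow : c / 2 * e ^ 2 ≤ nrm (tl a') := by
    have u1 : brk (tl a) (cj g (tl a)) = tl a' - (tl a' - brk (tl a) (cj g (tl a))) := by abel
    have u2 : nrm (brk (tl a) (cj g (tl a))) ≤ nrm (tl a') + nrm (tl a' - brk (tl a) (cj g (tl a))) := by
      have := nsub (tl a') (tl a' - brk (tl a) (cj g (tl a)))
      rwa [← u1] at this
    have u3 : 10 * δ ^ 3 ≤ c / 2 * e ^ 2 := by
      have h3 : 10 * δ ^ 3 = (e * (160 * K ^ 6)) * (e ^ 2 / 2) := by rw [hδ]; ring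
      rw [h3]
      have := mul_le_mul_of_nonneg_right e2 (by positivity : (0 : ℝ) ≤ e ^ 2 / 2)
      linarith
    rw [hsz] at hbrk
    linarith
  have hmemg : h ∈ E (L₀ + l + L₀) := hE.mul _ _ _ _ (hE.mul _ _ _ _ hg hmem) (hE.inv _ _ hg)
  have hmem' : a' ∈ E (4 * l + 4 * L₀) := by
    have := hE.mul _ _ _ _ (hE.mul _ _ _ _ (hE.mul _ _ _ _ hmem hmemg) (hE.inv _ _ hmem)) (hE.inv _ _ hmemg)
    exact hE.mono _ _ (by omega) this
  refine ⟨a', nrm (tl a'), ⟨hmem', lt_of_lt_of_le (by positivity) hlow, rfl, r2⟩, hlow, ?_⟩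
  refine r3.trans (q2.trans ?_)
  rw [hδ]
  apply le_of_eq
  ring

end Pool.Agent.MPEF
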