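import Pool.Agent.Lib.MP_ef3f0f_gt.N.Spec

set_option autoImplicit false

/-! Near `1` the norm is controlled by the traceless part. -/

namespace Pool.Agent.MPEF

open scoped Pointwise

private theorem tlnr_tr (h g : SL2) : tr2 (h * g * h⁻¹) = tr2 g := by
  have h1 : ∀ k : SL2, tr2 k = Matrix.trace k.1 := fun k => by
    rw [Matrix.trace_fin_two]; rfl
  rw [h1, h1]
  have h2 : (h * g * h⁻¹).1 = h.1 * g.1 * (h⁻¹).1 := rfl
  have h3 : (h⁻¹).1 * h.1 = 1 := by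
    have : (h⁻¹ * h).1 = (1 : SL2).1 := by rw [inv_mul_cancel]
    exact this
  rw [h2, Matrix.trace_mul_comm, ← mul_assoc, h3, one_mul]

private theorem tlnr_cj (h g : SL2) : tl (h * g * h⁻¹) = cj h (tl g) := by
  unfold tl cj
  rw [tlnr_tr]
  have h2 : (h * g * h⁻¹).1 = h.1 * g.1 * (h⁻¹).1 := rfl
  have h3 : h.1 * (h⁻¹).1 = 1 := by
    have : (h * h⁻¹).1 = (1 : SL2).1 := by rw [mul_inv_cancel]
    exact this
  rw [h2, Matrix.mul_sub, Matrix.sub_mul, Matrix.mul_smul, Matrix.smul_mul, mul_one, h3]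

private theorem tlnr_num (a b c d T N : ℝ) (hdet : a * d - b * c = 1)
    (hT : T ^ 2 = (a - d) ^ 2 / 2 + b ^ 2 + c ^ 2)
    (hN : N ^ 2 = (a - 1) ^ 2 + b ^ 2 + c ^ 2 + (d - 1) ^ 2) (hT0 : 0 ≤ T) (hN0 : 0 ≤ N)
    (hN1 : N ≤ 1 / 10) :
    |(a + d) / 2 - 1| ≤ T ^ 2 / 2 ∧ N ≤ 2 * T ∧ T ≤ N := by
  obtain ⟨τ, hτ⟩ : ∃ τ : ℝ, τ = (a + d) / 2 := ⟨_, rfl⟩
  rw [← hτ]
  have hN2 : N ^ 2 = T ^ 2 + 2 * (τ - 1) ^ 2 := by
    rw [hN, hT, hτ]; ring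
  have h0 : 0 ≤ (τ - 1) ^ 2 := sq_nonneg _
  have h3 : T ≤ N := by
    refine le_of_sq_le_sq ?_ hN0
    linarith
  have hNN : N ^ 2 ≤ (1 / 10) ^ 2 := pow_le_pow_left₀ hN0 hN1 2
  have hτ2 : τ ^ 2 - 1 = ((a - d) / 2) ^ 2 + b * c := by
    rw [hτ]; linear_combination hdet
  have h4 : |τ ^ 2 - 1| ≤ T ^ 2 / 2 := by
    rw [hτ2, hT, abs_le]
    have e1 := sq_nonneg (b - c)
    have e2 := sq_nonneg (b + c)
    have e3 := sq_nonneg (a - d)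
    constructor <;> linarith
  have h5 : |τ - 1| ≤ 1 / 10 := by
    refine abs_le_of_sq_le_sq ?_ (by norm_num)
    have := sq_nonneg T
    linarith
  have h6 : |τ - 1| ≤ T ^ 2 / 2 := by
    have h7 : |τ ^ 2 - 1| = |τ - 1| * |τ + 1| := by
      rw [← abs_mul]; congr 1; ring
    have h8 : 1 ≤ |τ + 1| := by
      have := (abs_le.1 h5).1
      rw [abs_of_pos (by linarith)]; linarith
    have h9 : |τ - 1| * 1 ≤ |τ - 1| * |τ + 1| := mul_le_mul_of_nonneg_left h8 (abs_nonneg _)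
    linarith
  have h7 : (τ - 1) ^ 2 ≤ T ^ 2 / 2 * (1 / 10) := by
    have : (τ - 1) ^ 2 = |τ - 1| * |τ - 1| := by rw [← sq, sq_abs]
    rw [this]
    exact mul_le_mul h6 h5 (abs_nonneg _) (by positivity)
  refine ⟨h6, ?_, h3⟩
  refine le_of_sq_le_sq ?_ (by linarith)
  have := sq_nonneg T
  have h8 : (2 * T) ^ 2 = 4 * T ^ 2 := by ring
  rw [h8]
  linarith

theorem ttlnr : S_nrm → S_tlnr := by
  rintro ⟨nn, -, -, -, nsm, -, -, -, nsq, -, -, -, -, -⟩ g hg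
  obtain ⟨a, ha⟩ : ∃ a, a = g.1 0 0 := ⟨_, rfl⟩
  obtain ⟨b, hb⟩ : ∃ a, a = g.1 0 1 := ⟨_, rfl⟩
  obtain ⟨c, hc⟩ : ∃ a, a = g.1 1 0 := ⟨_, rfl⟩
  obtain ⟨d, hd⟩ : ∃ a, a = g.1 1 1 := ⟨_, rfl⟩
  have hdet : a * d - b * c = 1 := by
    rw [ha, hb, hc, hd, ← Matrix.det_fin_two]; exact g.2
  have htr : tr2 g = a + d := by rw [ha, hd]; rfl
  have t00 : tl g 0 0 = (a - d) / 2 := by
    have : tl g 0 0 = g.1 0 0 - (tr2 g / 2) * 1 := rfl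
    rw [this, htr, ← ha]; ring
  have t11 : tl g 1 1 = -((a - d) / 2) := by
    have : tl g 1 1 = g.1 1 1 - (tr2 g / 2) * 1 := rfl
    rw [this, htr, ← hd]; ring
  have t01 : tl g 0 1 = b := by
    have : tl g 0 1 = g.1 0 1 - (tr2 g / 2) * 0 := rfl
    rw [this, ← hb]; ring
  have t10 : tl g 1 0 = c := by
    have : tl g 1 0 = g.1 1 0 - (tr2 g / 2) * 0 := rfl
    rw [this, ← hc]; ring
  have hT : nrm (tl g) ^ 2 = (a - d) ^ 2 / 2 + b ^ 2 + c ^ 2 := by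
    rw [nsq, t00, t11, t01, t10]; ring
  have hN : nrm (g.1 - 1) ^ 2 = (a - 1) ^ 2 + b ^ 2 + c ^ 2 + (d - 1) ^ 2 := by
    have e0 : (g.1 - 1) 0 0 = g.1 0 0 - 1 := rfl
    have e1 : (g.1 - 1) 0 1 = g.1 0 1 - 0 := rfl
    have e2 : (g.1 - 1) 1 0 = g.1 1 0 - 0 := rfl
    have e3 : (g.1 - 1) 1 1 = g.1 1 1 - 1 := rfl
    rw [nsq, e0, e1, e2, e3, ← ha, ← hb, ← hc, ← hd]; ring
  obtain ⟨h6, h7, h3⟩ := tlnr_num a b c d (nrm (tl g)) (nrm (g.1 - 1)) hdet hT hN (nn _) (nn _) hg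
  refine ⟨?_, h7, h3, ?_, fun h => tlnr_cj h g⟩
  · have h8 : g.1 - 1 - tl g = ((a + d) / 2 - 1) • (1 : M2) := by
      rw [tl, htr, sub_smul, one_smul]
      abel
    have h9 : nrm (1 : M2) ≤ 2 := by
      refine le_of_sq_le_sq ?_ (by norm_num)
      rw [nsq]
      have e0 : (1 : M2) 0 0 = 1 := rfl
      have e1 : (1 : M2) 0 1 = 0 := rfl
      have e2 : (1 : M2) 1 0 = 0 := rfl
      have e3 : (1 : M2) 1 1 = 1 := rfl
      rw [e0, e1, e2, e3]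
      norm_num
    rw [h8, nsm]
    have h10 := mul_le_mul h6 h9 (nn _) (by positivity)
    have := sq_nonneg (nrm (tl g))
    linarith
  · rw [t00, t11]

end Pool.Agent.MPEF
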